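import Pool.Agent.MP_c853c5_nt.Y.Defs
import Pool.Agent.MP_c853c5_nt.X.LeafS2

/-!
The leaves of the exact calculus for an arbitrary system of box estimates.
-/

set_option autoImplicit false

open Finset Filter

namespace Pool.Agent.MP_c853c5_nt.Y

open Pool.Agent.MP_c853c5_nt.S Pool.Agent.MP_c853c5_nt.X

variable {Y : Sys} {sg : Bool} {τ t : ℝ} {kind : ℕ → Kind} {Ω : Pt → Prop}

theorem xLeaf2G (h : CutStmt2) (hL : Leaf2G Y) {k : ℕ} (h1 : 1 / 3 ≤ t) (h2 : t < τ)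
    (h3 : τ ≤ 1 / 2) (hk : 1 ≤ k) (hv : KV k kind)
    (hr : ∀ (B : Fin k → Blk) (a : Pt), Ω a → (∀ m < k, 1 / 50 ≤ a m) →
      |∑ j ∈ range k, a j - 1| ≤ un → (∀ j : Fin k, Cl (kind j) (a j) (B j)) → Reg2G Y τ B) :
    H sg t k kind Ω 0 := by
  intro Q hQ hΩ
  refine Sg.of_ev (h.cut t k 0 kind (range k) Q hk hv subset_rfl (fun j hj _ => mem_range.2 hj)
    (fun c => absurd (mem_range.2 hk) c) hQ (fun a ha => (hΩ a ha).2) fun β a ha hs hc _ => ?_)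
  have := hL τ t h1 h2 h3 k (fun j => β j)
    (hr (fun j => β j) a (hΩ a ha).1 (hΩ a ha).2 hs fun j => hc j (mem_range.2 j.2))
  refine this.congr (Eventually.of_forall fun x n _ => ?_)
  rw [PF, prod_range]

theorem xLeafSG (h : CutStmt2) (hL : LeafSG Y) {r i : ℕ} (h1 : 1 / 3 ≤ t) (h2 : t < τ)
    (h3 : τ ≤ 1 / 2) (hi : i ≤ r) (hv : KV (r + 1) kind) (hP : kind i ≠ .P)
    (hr : ∀ (B : Fin r → Blk) (a : Pt) (z : ℝ), Ω a → (∀ m < r + 1, 1 / 50 ≤ a m) →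
      |∑ j ∈ range (r + 1), a j - 1| ≤ un →
      (∀ j : Fin r, Cl (kind (sk i j)) (a (sk i j)) (B j)) → 0 < z → (kind i).lev a z →
      DustOKG Y τ B z) : H sg t (r + 1) kind Ω 0 := by
  intro Q hQ hΩ
  refine Sg.of_ev (h.cut t (r + 1) i kind ((range (r + 1)).erase i) Q (by omega) hv
    (erase_subset _ _) (fun j hj e => mem_erase.2 ⟨e, mem_range.2 hj⟩) (fun _ => hP) hQ
    (fun a ha => (hΩ a ha).2) fun β a ha hs hc hf => ?_)
  obtain ⟨z, e, hz, hl⟩ := hf i (Nat.lt_succ_of_le hi) (notMem_erase _ _)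
  have hc' : ∀ j : Fin r, Cl (kind (sk i j)) (a (sk i j)) (β (sk i j)) := fun j =>
    hc _ (mem_erase.2 ⟨sk_ne_LeafS2 _ _, mem_range.2 (sk_lt_LeafS2 j.2)⟩)
  have := hL τ t h1 h2 h3 r (fun j => β (sk i j)) z (fun j => (hc' j).2.2.1) hz
    (hr (fun j => β (sk i j)) a z (hΩ a ha).1 (hΩ a ha).2 hs hc' hz hl)
  refine this.congr (Eventually.of_forall fun x n _ => ?_)
  rw [PF, prod_sk_Drop hi, e]

theorem xLeafS2G (h : CutStmt2) (hL : LeafS2G Y) {r i j : ℕ} (h1 : 1 / 3 ≤ t) (h2 : t < τ)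
    (h3 : τ ≤ 1 / 2) (hi : i ≤ r + 1) (hj : j ≤ r) (hv : KV (r + 2) kind) (hP : kind i ≠ .P)
    (hP2 : kind (sk i j) ≠ .P)
    (hr : ∀ (B : Fin r → Blk) (a : Pt) (z1 z2 lo hi : ℝ), Ω a → (∀ m < r + 2, 1 / 50 ≤ a m) →
      |∑ m ∈ range (r + 2), a m - 1| ≤ un →
      (∀ m : Fin r, Cl (kind (sk i (sk j m))) (a (sk i (sk j m))) (B m)) → 0 < z1 → 0 < z2 →
      (kind i).lev a z1 → (kind (sk i j)).lev a z2 → a (sk i j) - un ≤ lo →
      hi ≤ a (sk i j) + un → DustOK2G Y τ B z1 z2 lo hi) : H sg t (r + 2) kind Ω 0 := by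
  intro Q hQ hΩ
  refine Sg.of_ev (h t (r + 2) i kind ((range (r + 2)).erase i) Q (by omega) hv (erase_subset _ _)
    (fun j hj e => mem_erase.2 ⟨e, mem_range.2 hj⟩) (fun _ => hP) hQ (fun a ha => (hΩ a ha).2)
    fun β a ha hs hc hf => ?_)
  have i2 : i < r + 2 := by omega
  obtain ⟨z, e, hz, hl⟩ := hf i i2 (notMem_erase _ _)
  have m1 : ∀ m < r + 1, sk i m ∈ (range (r + 2)).erase i := fun m hm =>
    mem_erase.2 ⟨sk_ne_LeafS2 _ _, mem_range.2 (sk_lt_LeafS2 hm)⟩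
  have hc' : ∀ m : Fin r, Cl (kind (sk i (sk j m))) (a (sk i (sk j m))) (β (sk i (sk j m))) :=
    fun m => (hc _ (m1 _ (sk_lt_LeafS2 m.2))).1
  obtain ⟨⟨c1, c2, c3, -⟩, c4, c5⟩ := hc _ (m1 j (by omega))
  have j2 : sk i j < r + 2 := sk_lt_LeafS2 (by omega)
  have a1 := (hΩ a ha).2
  have a2 : a (sk i j) + a i ≤ ∑ m ∈ range (r + 2), a m := by
    rw [← sum_pair (sk_ne_LeafS2 i j)]
    refine sum_le_sum_of_subset_of_nonneg (fun m hm => ?_)
      fun m hm _ => by linarith [a1 m (mem_range.1 hm)]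
    rcases mem_insert.1 hm with rfl | hm
    · exact mem_range.2 j2
    · rw [mem_singleton.1 hm]
      exact mem_range.2 i2
  have u : un = 1 / 1000000 := rfl
  have := hL τ t h1 h2 h3 r (fun m => β (sk i (sk j m))) z (β (sk i j)).a (β (sk i j)).lo
    (β (sk i j)).hi (fun m => (hc' m).2.2.1) hz (by linarith) (by linarith [a1 _ j2])
    (by linarith [a1 _ i2, (abs_le.1 hs).2])
    (hr (fun m => β (sk i (sk j m))) a z _ _ _ (hΩ a ha).1 a1 hs hc' hz (by linarith) hl (c5 hP2)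
      c1 c2)
  refine this.congr (Eventually.of_forall fun x n _ => ?_)
  have e2 : β (sk i j) = ⟨(β (sk i j)).lo, (β (sk i j)).hi, (β (sk i j)).a, none⟩ := by
    rw [← c4]
  rw [PF, prod_sk_Drop hi, e, ← prod_range (fun m => bf x (β (sk i m))), prod_sk_Drop hj, ← e2]

end Pool.Agent.MP_c853c5_nt.Y
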