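import Pool.Agent.MP_c853c5_nt.Y.SysW
import Pool.Agent.MP_c853c5_nt.REG.U

/-!
Uniform leaves with the mixed fourth moment.
-/

set_option autoImplicit false

open Finset

namespace Pool.Agent.MP_c853c5_nt.Y

open Pool.Agent.MP_c853c5_nt.S Pool.Agent.MP_c853c5_nt.R Pool.Agent.MP_c853c5_nt.REG

lemma w_one {τ η l n m b : ℝ} {K : ℕ} (hK : 2 ≤ K) (hb : 1 / 10 ≤ b)
    (h : max τ (τ / 2 + 2 * l) + max τ (l + 2 * n) + 2 * max τ m ≤ 2 - 4 * η) :
    E1ptW τ η K ![l, n, m] b := by
  refine ⟨hb, fun r v _ _ _ hc hx => ?_⟩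
  have c0 := hx none rfl (fun o => o.elim 0 ![1, 0, 0]) (by
    rintro (_ | j)
    · simp
    · fin_cases j <;> simp; omega)
  have c1 := (hc (fun o => o.elim 0 ![1, 2, 0]) (by
    rintro (_ | j)
    · simp
    · fin_cases j <;> simp <;> omega)).1
  have c2 := (hc (fun o => o.elim 0 ![0, 0, 1]) (by
    rintro (_ | j)
    · simp
    · fin_cases j <;> simp; omega)).1
  simp [Fintype.sum_option, Fin.sum_univ_three, -le_sup_iff] at c0 c1 c2 ⊢
  linarith

lemma w_two {τ η l m b1 b2 : ℝ} {K : ℕ} (hK : 1 ≤ K) (h1 : 1 / 10 ≤ b1) (h2 : 1 / 10 ≤ b2)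
    (h : max τ (τ / 2 + 2 * l) + max τ m ≤ 1 - 2 * η) : E12ptW τ η K ![l, m] b1 b2 := by
  refine ⟨h1, h2, fun r v _ _ _ hc hx => ?_⟩
  have k : ∀ j : Option (Option (Fin 2)), (j.elim 0 fun o => o.elim 0 ![1, 0]) ≤ K := by
    rintro (_ | _ | j)
    · simp
    · simp
    · fin_cases j <;> simp; omega
  have c0 := hx none (Or.inl rfl) _ k
  have c1 := hx (some none) (Or.inr rfl) _ k
  have c2 := (hc (fun o => o.elim 0 fun o => o.elim 0 ![0, 1]) (by
    rintro (_ | _ | j)
    · simp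
    · simp
    · fin_cases j <;> simp; omega)).1
  simp [Fintype.sum_option, Fin.sum_univ_two, -le_sup_iff] at c0 c1 c2 ⊢
  linarith

lemma e_one {τ η g m b : ℝ} {K : ℕ} (hK : 1 ≤ K) (hb : 1 / 10 ≤ b) (h1 : g ≤ b) (h2 : g ≤ τ)
    (h : τ + max τ m ≤ 1 - 2 * η) : E1pt τ η K ![g, m] b := by
  have : E.av τ b + g ≤ τ := by
    rcases le_total b τ with e | e
    · have : E.av τ b ≤ τ - b := max_le (by linarith) (min_le_right _ _)
      linarith
    · have : E.av τ b ≤ 0 := max_le le_rfl ((min_le_right _ _).trans (by linarith))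
      linarith
  refine ⟨hb, (eval_two (n0 := E.av τ b + g) (n1 := m) hK (by rwa [max_eq_left this])).group
    (fun o : Option (Fin 2) => o.elim 0 id) fun i => le_of_eq ?_⟩
  rw [sum_filter, Fintype.sum_option, Fin.sum_univ_two]
  fin_cases i <;> simp

/-- a threshold is crossed by a small prime -/
lemma cross {ι : Type} [Fintype ι] [DecidableEq ι] {τ ν s c κ : ℝ} {a : ι → ℝ} (A D : Finset ι)
    (hτ : 1 / 3 ≤ τ) (hs : 0 < s) (hν1 : ν ≤ 1 / 10) (c1 : τ + ν / 2 + s ≤ c)
    (c2 : c + τ + ν / 2 + s ≤ 1) (hκ : 0 < κ) (hAD : Disjoint A D)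
    (hq : ∀ j ∈ D, κ ≤ a j ∧ a j ≤ ν) (h1 : ∑ i, a i = 1) (hA : ∑ i ∈ A, a i < c)
    (hc : c ≤ ∑ i ∈ A, a i + ∑ i ∈ D, a i) :
    ∃ j ∈ D, S.Eval τ (min (κ / 2) (s / 2)) (⌈1 / κ⌉₊ + 2) a (1 / 2) := by
  obtain ⟨T, j, hj, h2, h3⟩ := exists_cross (J := D) (q := fun j => a j) hA
    (by rwa [sum_coe_sort D a])
  obtain ⟨h4, h5⟩ := hq j j.2
  set U := A ∪ T.map (Function.Embedding.subtype _) with hU
  have u1 : ∑ i ∈ U, a i = ∑ i ∈ A, a i + ∑ k ∈ T, a k := by
    rw [hU, sum_union, sum_map]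
    · rfl
    · refine disjoint_of_subset_right (fun i hi => ?_) hAD
      obtain ⟨k, -, rfl⟩ := mem_map.1 hi
      exact k.2
  have u2 : (j : ι) ∉ U := fun h => by
    rcases mem_union.1 h with h | h
    · exact disjoint_left.1 hAD h j.2
    · obtain ⟨k, hk, e⟩ := mem_map.1 h
      exact hj (Subtype.ext e ▸ hk)
  have key := window (K := ⌈1 / κ⌉₊ + 2) (τ := τ) (κ := κ) (s := s) (η := min (κ / 2) (s / 2))
    (a0 := ∑ i ∈ U, a i) (a1 := 1 - ∑ i ∈ U, a i - a j) (p := a j) hτ (by linarith) hκ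
    h4 (by linarith) (by linarith) hs (by ring) (by linarith) (by linarith)
    ((Nat.le_ceil _).trans (by simp)) (min_le_left _ _) (min_le_right _ _)
  refine ⟨j, j.2, key.group (fun i => if i ∈ U then 0 else if i = j then 2 else 1)
    fun i => le_of_eq ?_⟩
  have e0 : univ.filter (fun i => (if i ∈ U then 0 else if i = j then 2 else 1 : Fin 3) = 0) =
      U := by
    ext i
    simp only [mem_filter, mem_univ, true_and]
    split_ifs <;> simp_all
  have e2 : univ.filter (fun i => (if i ∈ U then 0 else if i = j then 2 else 1 : Fin 3) = 2) =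
      {(j : ι)} := by
    ext i
    simp only [mem_filter, mem_univ, true_and, mem_singleton]
    split_ifs with k1 k2
    · simp only [Fin.reduceEq, false_iff]
      rintro rfl
      exact u2 k1
    · simp [k2]
    · simp [k2]
  have e1 := sum_fiberwise univ (fun i => (if i ∈ U then 0 else if i = j then 2 else 1 : Fin 3)) a
  rw [Fin.sum_univ_three, e0, e2, sum_singleton, h1] at e1
  fin_cases i
  · simp only [Fin.zero_eta, e0, Matrix.cons_val_zero]
  · simp only [Fin.mk_one, Matrix.cons_val_one, Matrix.cons_val_zero]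
    linarith
  · simp only [Fin.reduceFinMk, e2, sum_singleton, Matrix.cons_val]

/-- one sieved factor; the other factors carry the labels `0`, `1`, `2` -/
theorem uw_one {r : ℕ} {τ ν s c z : ℝ} {B : Fin r → Blk} (g : Fin r → Fin 3) (hτ : 1 / 3 ≤ τ)
    (hs : 0 < s) (hν0 : 0 ≤ ν) (hν1 : ν ≤ 1 / 10) (c1 : τ + ν / 2 + s ≤ c)
    (c2 : c + τ + ν / 2 + s ≤ 1) (hz : z ≤ ν)
    (hB : ∀ a l n m, InBox B a → l = ∑ i ∈ univ.filter (fun i => g i = 0), a i →
      n = ∑ i ∈ univ.filter (fun i => g i = 1), a i →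
      m = ∑ i ∈ univ.filter (fun i => g i = 2), a i →
      m ≤ 1 - c ∧ max τ (τ / 2 + 2 * l) + max τ (l + 2 * n) + 2 * s ≤ 2 * c ∧
        l + n + 1 / 10 ≤ c) : DustOKG sysW τ B z := by
  classical
  refine ⟨s / 2, by positivity, fun κ hκ => ⟨min (min (κ / 2) (s / 2))
    (min κ (1 / (13 * (((⌈1 / κ⌉₊ + 2 : ℕ) : ℝ) + 1)) / (r + 1 / κ + 1))), by positivity,
    ⌈1 / κ⌉₊ + 2, fun j a q b ha hq hb h1 => ?_⟩⟩
  obtain ⟨b1, b2, b3⟩ := hB a _ _ _ ha rfl rfl rfl
  have e1 := sum_fiberwise univ g a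
  rw [Fin.sum_univ_three] at e1
  set l := ∑ i ∈ univ.filter (fun i => g i = 0), a i with hl
  set n := ∑ i ∈ univ.filter (fun i => g i = 1), a i with hn
  set m := ∑ i ∈ univ.filter (fun i => g i = 2), a i with hm
  rcases le_or_gt c (b + l + n) with e | e
  · refine Or.inl ((w_one (l := l) (n := n) (m := m + ∑ i, q i) (by omega) (by linarith) ?_).group
      (Sum.elim g fun _ => 2) fun i => le_of_eq ?_)
    · have : max τ (m + ∑ i, q i) ≤ 1 - c := max_le (by linarith) (by linarith)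
      linarith
    · rw [sum_filter, Fintype.sum_sum_type]
      fin_cases i <;> simp [hl, hn, hm, sum_filter]
  · obtain ⟨k, hk, h2⟩ := cross (a := fun o : Option (Fin r ⊕ Fin j) => o.elim b (Sum.elim a q))
      (univ.filter fun o => o.elim True (Sum.elim (fun i => g i ≠ 2) fun _ => False))
      (univ.filter fun o => o.elim False (Sum.elim (fun _ => False) fun _ => True))
      hτ hs hν1 c1 c2 hκ
      (disjoint_filter.2 (by rintro (_ | i | i) <;> simp))
      (by
        rintro (_ | i | i) h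
        · simp at h
        · simp at h
        · exact (hq i).imp_right fun e => e.trans hz)
      (by rw [Fintype.sum_option, Fintype.sum_sum_type, add_comm]; exact h1)
      (by
        have := sum_filter_add_sum_filter_not univ (fun i => g i = 2) a
        rw [sum_filter, Fintype.sum_option, Fintype.sum_sum_type]
        simp only [sum_filter] at this hm
        simp
        simp only [ite_not] at this
        linarith)
      (by
        have := sum_filter_add_sum_filter_not univ (fun i => g i = 2) a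
        rw [sum_filter, sum_filter, Fintype.sum_option, Fintype.sum_option, Fintype.sum_sum_type,
          Fintype.sum_sum_type]
        simp only [sum_filter] at this hm
        simp
        simp only [ite_not] at this
        linarith)
    have h3 : 0 ≤ ∑ i, a i := sum_nonneg fun i _ => (ha i).1
    have h4 := card_le_of hκ hq (by linarith)
    rcases k with _ | k | k
    · simp at hk
    · simp at hk
    refine Or.inr (e2pt_of_eval (i := some (Sum.inr k)) h2 (by positivity) hτ ?_ ?_ trivial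
      (hq k).1 ?_)
    · rintro (_ | i | i)
      exacts [hb, (ha i).1, hκ.le.trans (hq i).1]
    · rw [Fintype.sum_option, Fintype.sum_sum_type, add_comm]
      exact h1
    · simp only [Fintype.card_option, Fintype.card_sum, Fintype.card_fin]
      push_cast
      linarith

/-- two sieved factors; the other factors carry the labels `0`, `1` -/
theorem uw_two {r : ℕ} {τ ν s c z1 z2 lo hi : ℝ} {B : Fin r → Blk} (g : Fin r → Fin 2)
    (hτ : 2 / 5 ≤ τ) (hs : 0 < s) (hν0 : 0 ≤ ν) (hν1 : ν ≤ 1 / 10) (c1 : τ + ν / 2 + s ≤ c)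
    (c2 : c + τ + ν / 2 + s ≤ 1) (hz1 : z1 ≤ ν) (hz2 : z2 ≤ ν)
    (hB : ∀ a l m, InBox B a → l = ∑ i ∈ univ.filter (fun i => g i = 0), a i →
      m = ∑ i ∈ univ.filter (fun i => g i = 1), a i → m ≤ 1 - c ∧ τ / 2 + 2 * l + s ≤ c) :
    DustOK2G sysW τ B z1 z2 lo hi := by
  classical
  refine ⟨s / 2, by positivity, fun κ hκ => ⟨min (min (κ / 2) (s / 2))
    (min κ (1 / (13 * (((⌈1 / κ⌉₊ + 2 : ℕ) : ℝ) + 1)) / (r + 1 / κ + 1 / κ + 2))), by positivity,
    ⌈1 / κ⌉₊ + 2, fun j1 j2 a q1 q2 b1 b2 ha hq1 hq2 hb1 hb2 h1 _ _ => ?_⟩⟩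
  obtain ⟨d1, d2⟩ := hB a _ _ ha rfl rfl
  have e1 := sum_fiberwise univ g a
  rw [Fin.sum_univ_two] at e1
  set l := ∑ i ∈ univ.filter (fun i => g i = 0), a i with hl
  set m := ∑ i ∈ univ.filter (fun i => g i = 1), a i with hm
  have l0 : 0 ≤ l := sum_nonneg fun i _ => (ha i).1
  rcases le_or_gt c (b1 + b2 + l) with e | e
  · have k1 : max τ (m + (∑ i, q1 i + ∑ i, q2 i)) ≤ 1 - c := max_le (by linarith) (by linarith)
    have one : ∀ b β : ℝ, β < 1 / 10 → c ≤ b + β + l →
        E1ptW τ (s / 2) (⌈1 / κ⌉₊ + 2) (fun o : Option (Fin r ⊕ (Fin j1 ⊕ Fin j2)) =>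
          o.elim β (Sum.elim a (Sum.elim q1 q2))) b := fun b β k2 k3 => by
      refine E1ptW.of_pt ((e_one (g := β + l) (m := m + (∑ i, q1 i + ∑ i, q2 i)) (by omega)
        (by linarith) (by linarith) (by linarith) (by linarith)).group
        (fun o => o.elim 0 (Sum.elim g fun _ => 1)) fun i => le_of_eq ?_)
      rw [sum_filter, Fintype.sum_option, Fintype.sum_sum_type]
      fin_cases i <;> simp [hl, hm, sum_filter]
    rcases lt_or_ge b2 (1 / 10) with k2 | k2
    · exact Or.inr (Or.inl (one b1 b2 k2 e))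
    rcases lt_or_ge b1 (1 / 10) with k3 | k3
    · exact Or.inr (Or.inr (Or.inl (one b2 b1 k3 (by linarith))))
    refine Or.inr (Or.inr (Or.inr ((w_two (l := l) (m := m + (∑ i, q1 i + ∑ i, q2 i)) (by omega)
      k3 k2 ?_).group (Sum.elim g fun _ => 1) fun i => le_of_eq ?_)))
    · have : max τ (τ / 2 + 2 * l) ≤ c - s := max_le (by linarith) (by linarith)
      linarith
    · rw [sum_filter, Fintype.sum_sum_type]
      fin_cases i <;> simp [hl, hm, sum_filter]
  · have hq : ∀ j, κ ≤ Sum.elim q1 q2 j ∧ Sum.elim q1 q2 j ≤ ν := by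
      rintro (j | j)
      exacts [(hq1 j).imp_right fun e => e.trans hz1, (hq2 j).imp_right fun e => e.trans hz2]
    have hS : ∑ o : Option (Option (Fin r ⊕ (Fin j1 ⊕ Fin j2))),
        (o.elim b1 fun o' => o'.elim b2 (Sum.elim a (Sum.elim q1 q2))) = 1 := by
      simp only [Fintype.sum_option, Fintype.sum_sum_type, Option.elim, Sum.elim_inl, Sum.elim_inr]
      linarith
    obtain ⟨k, hk, h2⟩ := cross (a := fun o : Option (Option (Fin r ⊕ (Fin j1 ⊕ Fin j2))) =>
        o.elim b1 fun o' => o'.elim b2 (Sum.elim a (Sum.elim q1 q2)))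
      (univ.filter fun o => o.elim True fun o' =>
        o'.elim True (Sum.elim (fun i => g i = 0) fun _ => False))
      (univ.filter fun o => o.elim False fun o' =>
        o'.elim False (Sum.elim (fun _ => False) fun _ => True))
      (by linarith) hs hν1 c1 c2 hκ
      (disjoint_filter.2 (by rintro (_ | _ | i | i) <;> simp))
      (by
        rintro (_ | _ | i | i) h
        · simp at h
        · simp at h
        · simp at h
        · exact hq i) hS
      (by
        rw [sum_filter, Fintype.sum_option, Fintype.sum_option, Fintype.sum_sum_type]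
        simp only [sum_filter] at hl
        simp
        linarith)
      (by
        rw [sum_filter, sum_filter, Fintype.sum_option, Fintype.sum_option, Fintype.sum_option,
          Fintype.sum_option, Fintype.sum_sum_type, Fintype.sum_sum_type]
        simp only [sum_filter] at hl
        simp
        linarith)
    have h3 : 0 ≤ ∑ i, a i := sum_nonneg fun i _ => (ha i).1
    have h4 : 0 ≤ ∑ i, q1 i := sum_nonneg fun i _ => hκ.le.trans (hq1 i).1
    have h5 : 0 ≤ ∑ i, q2 i := sum_nonneg fun i _ => hκ.le.trans (hq2 i).1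
    have h6 := card_le_of hκ hq1 (by linarith)
    have h7 := card_le_of hκ hq2 (by linarith)
    rcases k with _ | _ | k | k
    · simp at hk
    · simp at hk
    · simp at hk
    refine Or.inl (e2pt_of_eval (i := some (some (Sum.inr k))) h2 (by positivity) (by linarith)
      ?_ hS trivial (hq k).1 ?_)
    · rintro (_ | _ | i | i)
      exacts [hb1, hb2, (ha i).1, hκ.le.trans (hq i).1]
    · simp only [Fintype.card_option, Fintype.card_sum, Fintype.card_fin]
      push_cast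
      linarith

/-- the sum of the upper ends of the blocks with the label `e` -/
noncomputable def hs {r n : ℕ} (B : Fin r → Blk) (g : Fin r → Fin n) (e : Fin n) : ℝ :=
  ∑ i ∈ univ.filter (fun i => g i = e), (B i).hi

lemma le_hs {r n : ℕ} {B : Fin r → Blk} {g : Fin r → Fin n} {e : Fin n} {a : Fin r → ℝ} {l : ℝ}
    (ha : InBox B a) (h : l = ∑ i ∈ univ.filter (fun i => g i = e), a i) : l ≤ hs B g e :=
  h.trans_le (sum_le_sum fun i _ => (ha i).2.2)

theorem uw_one_hi {r : ℕ} {τ ν s c z : ℝ} {B : Fin r → Blk} (g : Fin r → Fin 3) (hτ : 1 / 3 ≤ τ)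
    (h0 : 0 < s) (hν0 : 0 ≤ ν) (hν1 : ν ≤ 1 / 10) (c1 : τ + ν / 2 + s ≤ c)
    (c2 : c + τ + ν / 2 + s ≤ 1) (hz : z ≤ ν) (h1 : hs B g 2 ≤ 1 - c)
    (h2 : max τ (τ / 2 + 2 * hs B g 0) + max τ (hs B g 0 + 2 * hs B g 1) + 2 * s ≤ 2 * c)
    (h3 : hs B g 0 + hs B g 1 + 1 / 10 ≤ c) : DustOKG sysW τ B z :=
  uw_one g hτ h0 hν0 hν1 c1 c2 hz fun a l n m ha hl hn hm => by
    have a1 := le_hs ha hl
    have a2 := le_hs ha hn
    have a3 : max τ (τ / 2 + 2 * l) ≤ max τ (τ / 2 + 2 * hs B g 0) :=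
      max_le_max le_rfl (by linarith)
    have a4 : max τ (l + 2 * n) ≤ max τ (hs B g 0 + 2 * hs B g 1) :=
      max_le_max le_rfl (by linarith)
    exact ⟨(le_hs ha hm).trans h1, by linarith, by linarith⟩

theorem uw_two_hi {r : ℕ} {τ ν s c z1 z2 lo hi : ℝ} {B : Fin r → Blk} (g : Fin r → Fin 2)
    (hτ : 2 / 5 ≤ τ) (h0 : 0 < s) (hν0 : 0 ≤ ν) (hν1 : ν ≤ 1 / 10) (c1 : τ + ν / 2 + s ≤ c)
    (c2 : c + τ + ν / 2 + s ≤ 1) (hz1 : z1 ≤ ν) (hz2 : z2 ≤ ν) (h1 : hs B g 1 ≤ 1 - c)
    (h2 : τ / 2 + 2 * hs B g 0 + s ≤ c) : DustOK2G sysW τ B z1 z2 lo hi :=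
  uw_two g hτ h0 hν0 hν1 c1 c2 hz1 hz2 fun a l m ha hl hm =>
    ⟨(le_hs ha hm).trans h1, by linarith [le_hs ha hl]⟩

end Pool.Agent.MP_c853c5_nt.Y
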