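import Pool.Agent.MP_c853c5_nt.Y.Defs
import Pool.Agent.MP_c853c5_nt.R.WDefs

/-!
The system with the mixed fourth moment, and the union of two systems.
-/

set_option autoImplicit false

open Finset Filter

namespace Pool.Agent.MP_c853c5_nt.Y

open Pool.Agent.MP_c853c5_nt.S

/-- the system with the mixed fourth moment -/
def sysW : Sys := ⟨R.E1ptW, R.E12ptW, E2pt⟩

theorem sysW_ok (h1 : R.E1DW) (h12 : R.E12DW) (h2 : E2D) : sysW.OK :=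
  ⟨⟨fun h => h.1, fun h => ⟨h.1, h.2.1⟩, fun h hη => R.E1ptW.mono h le_rfl hη,
    fun h hη => R.E12ptW.mono h le_rfl hη⟩, h1, h12, h2⟩

/-- one more condition of type II -/
def Sys.or2 (Y Z : Sys) : Sys :=
  ⟨Y.q1, Y.q12, fun τ η K pr a => Y.q2 τ η K pr a ∨ Z.q2 τ η K pr a⟩

theorem Sys.OK.or2 {Y Z : Sys} (h : Y.OK) (h' : E2G Z) : (Y.or2 Z).OK := by
  refine ⟨⟨h.sd.big1, h.sd.big12, h.sd.mono1, h.sd.mono12⟩, h.e1, h.e12, ?_⟩
  intro ι _ τ t η K A h1 h2 h3 h4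
  obtain ⟨γ, hγ, k⟩ := h.e2 ι τ t η K A h1 h2 h3 h4
  obtain ⟨γ', hγ', k'⟩ := h' ι τ t η K A h1 h2 h3 h4
  refine ⟨min γ γ', lt_min hγ hγ', ?_⟩
  filter_upwards [k, k', eventually_ge_atTop 1] with x k k' hx pr a N g a1 a2 a3 a4 a5 a6
  have e : ∀ c, min γ γ' ≤ c → ∀ i, x ^ (a i - c) ≤ N i ∧ (N i : ℝ) ≤ x ^ (a i + c) :=
    fun c hc i => ⟨(Real.rpow_le_rpow_of_exponent_le hx (by linarith)).trans (a4 i).1,
      (a4 i).2.trans (Real.rpow_le_rpow_of_exponent_le hx (by linarith))⟩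
  rcases a2 with a2 | a2
  · exact k pr a N g a1 a2 a3 (e _ (min_le_left _ _)) a5 a6
  · exact k' pr a N g a1 a2 a3 (e _ (min_le_right _ _)) a5 a6

end Pool.Agent.MP_c853c5_nt.Y
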