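import Pool.Agent.MP_c853c5_nt.Y.Defs
import Pool.Agent.MP_c853c5_nt.D2.Main

/-!
Leaves with two sieved factors.
-/

set_option autoImplicit false

open Finset Filter

namespace Pool.Agent.MP_c853c5_nt.Y

open Pool.Agent.MP_c853c5_nt.S Pool.Agent.MP_c853c5_nt.D Pool.Agent.MP_c853c5_nt.D2

def TaG (Y : Sys) : Prop := E1G Y → ∀ (ι : Type) [Fintype ι] (τ t η : ℝ) (K : ℕ), 1 / 3 ≤ t → t < τ →
  τ ≤ 1 / 2 → 0 < η → η ≤ 1 / 1000 → ∃ γ : ℝ, 0 < γ ∧ ∀ᶠ x : ℝ in atTop,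
    ∀ (a : ι → ℝ) (b : ℝ) (N : ι → ℕ) (g : ι → AF) (lam : AF) (y : ℝ),
      (∀ i, 0 ≤ a i ∧ a i ≤ 1) → b ≤ 1 → Y.q1 τ η K a b → (∀ i, Slot (N i) (g i)) →
      (∀ i, (N i : ℝ) ≤ x ^ (a i + γ)) → x ^ (b - γ) ≤ y → y ≤ x ^ (b + γ) →
      (∏ i, (N i : ℝ)) * y ≤ 2 * x → (∀ d, |lam d| ≤ 1) →
      (∀ d, lam d ≠ 0 → (d : ℝ) ≤ x ^ lev τ t η) →
      |Dl t x ((∏ i, g i) * pm (lam * zt) (oy y))| ≤ x ^ (1 - η / 10)

def TbG (Y : Sys) : Prop := E12G Y → ∀ (ι : Type) [Fintype ι] (τ t η : ℝ) (K : ℕ), 1 / 3 ≤ t → t < τ →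
  τ ≤ 1 / 2 → 0 < η → η ≤ 1 / 1000 → ∃ γ : ℝ, 0 < γ ∧ ∀ᶠ x : ℝ in atTop,
    ∀ (a : ι → ℝ) (b1 b2 : ℝ) (N : ι → ℕ) (g : ι → AF) (l1 l2 : AF) (y1 y2 : ℝ),
      (∀ i, 0 ≤ a i ∧ a i ≤ 1) → b1 ≤ 1 → b2 ≤ 1 → Y.q12 τ η K a b1 b2 →
      (∀ i, Slot (N i) (g i)) → (∀ i, (N i : ℝ) ≤ x ^ (a i + γ)) →
      x ^ (b1 - γ) ≤ y1 → y1 ≤ x ^ (b1 + γ) → x ^ (b2 - γ) ≤ y2 → y2 ≤ x ^ (b2 + γ) →
      (∏ i, (N i : ℝ)) * y1 * y2 ≤ 2 * x → (∀ d, |l1 d| ≤ 1) → (∀ d, |l2 d| ≤ 1) →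
      (∀ d, l1 d ≠ 0 → (d : ℝ) ≤ x ^ lev τ t η) → (∀ d, l2 d ≠ 0 → (d : ℝ) ≤ x ^ lev τ t η) →
      |Dl t x ((∏ i, g i) * pm (l1 * zt) (oy y1) * pm (l2 * zt) (oy y2))| ≤ x ^ (1 - η / 10)

def BoxG (Y : Sys) : Prop := TaG Y → TbG Y → E1G Y → E2G Y → E12G Y → ∀ (ι : Type) [Fintype ι]
  (τ t η η' κ : ℝ) (K w A : ℕ), 1 / 3 ≤ t → t < τ → τ ≤ 1 / 2 → 0 < η → η ≤ 1 / 1000 →
  0 < η' → 0 < κ → κ * (4 * w + 6) ≤ lev τ t η → ∃ γ : ℝ, 0 < γ ∧ ∀ᶠ x : ℝ in atTop,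
    ∀ lam e : AF, FW x κ w lam e → ∀ (pr : ι → Prop) (c : ι → ℝ) (b1 b2 : ℝ) (N : ι → ℕ)
      (g : ι → AF) (k1 k2 : ℕ), (∀ i, 0 ≤ c i) → 0 ≤ b1 → 0 ≤ b2 → ∑ i, c i + b1 + b2 = 1 →
      Alt4G Y τ η η' K pr c b1 b2 → (∀ i, Slot (N i) (g i)) → (∀ i n, 0 ≤ g i n) → Near x γ c N →
      (∀ i, pr i → ∃ P Q : ℕ, g i = prI P Q) →
      x ^ (b1 - γ) ≤ yk_T1 k1 → yk_T1 k1 ≤ x ^ (b1 + γ) →
      x ^ (b2 - γ) ≤ yk_T1 k2 → yk_T1 k2 ≤ x ^ (b2 + γ) →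
      (∏ i, (N i : ℝ)) * ⌈yk_T1 k1⌉₊ * ⌈yk_T1 k2⌉₊ ≤ 2 * x →
      |Dl t x ((∏ i, g i) * pc (RR x κ) k1 * pc (RR x κ) k2)| ≤ x / Real.log x ^ A +
        2 * er x κ lam e (∏ i, g i) k1 k2 + 2 * er x κ lam e (∏ i, g i) k2 k1

def Alt2G (Y : Sys) {r : ℕ} (τ η η' κ z1 z2 lo hi : ℝ) (K : ℕ) (B : Fin r → Blk) : Prop :=
  ∀ (j1 j2 : ℕ) (a : Fin r → ℝ) (q1 : Fin j1 → ℝ) (q2 : Fin j2 → ℝ) (b1 b2 : ℝ), InBox B a →
    (∀ i, κ ≤ q1 i ∧ q1 i ≤ z1) → (∀ i, κ ≤ q2 i ∧ q2 i ≤ z2) → 0 ≤ b1 → 0 ≤ b2 →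
    ∑ i, a i + (∑ i, q1 i + ∑ i, q2 i) + b1 + b2 = 1 →
    lo ≤ ∑ i, q2 i + b2 → ∑ i, q2 i + b2 ≤ hi →
    Alt4G Y τ η η' K (Sum.elim (fun i => (B i).IsP) fun _ : Fin j1 ⊕ Fin j2 => True)
      (Sum.elim a (Sum.elim q1 q2)) b1 b2

def One2G (Y : Sys) : Prop := BoxG Y → NomStmt2 → TaG Y → TbG Y → E1G Y → E2G Y → E12G Y →
  ∀ (τ t η η' κ z1 z2 lo hi : ℝ) (K w r : ℕ) (B : Fin r → Blk), 1 / 3 ≤ t → t < τ →
    τ ≤ 1 / 2 → 0 < η → η ≤ 1 / 1000 → 0 < η' → 0 < κ → κ * (4 * w + 6) ≤ lev τ t η →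
    Alt2G Y τ η η' κ z1 z2 lo hi K B → ∀ j1 j2, OneOK2 t κ z1 z2 lo hi w B j1 j2

variable {Y : Sys}

theorem yTa (hY : Y.Sd) : TaG Y := by
  intro hE ι _ τ t η K ht htτ hτ hη hη'
  obtain ⟨γ₀, h0, hE⟩ := hE ι τ t η K ht htτ hτ hη hη'
  refine ⟨min γ₀ ((τ - t) / 4), lt_min h0 (by linarith), ?_⟩
  have g1 := min_le_left γ₀ ((τ - t) / 4)
  have g2 := min_le_right γ₀ ((τ - t) / 4)
  generalize min γ₀ ((τ - t) / 4) = γ at g1 g2
  filter_upwards [hE, eventually_ge_atTop 1] with x hE x1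
  intro a b N g lam y ha hb h1 hS hN y1 y2 hP hl hd
  have x0 : 0 < x := by linarith
  have e : (∏ i, g i) * pm (lam * zt) (oy y) =
      ∑ d ∈ Icc 1 ⌊x ^ lev τ t η⌋₊, lam d • (sgl d * (∏ i, g i) * omz (y / d)) := by
    rw [pm_exp_Ta2 fun d h => Nat.le_floor (hd d h), mul_sum]
    refine sum_congr rfl fun d _ => ?_
    rw [mul_smul_comm, mul_left_comm, mul_assoc]
  rw [e, Dl_sum]
  calc _ ≤ ∑ d ∈ Icc 1 ⌊x ^ lev τ t η⌋₊, x ^ (1 - η / 5) := by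
        refine (abs_sum_le_sum_abs _ _).trans (sum_le_sum fun d hd' => ?_)
        obtain ⟨q1, q2, q3⟩ := range_Ta2 x1 ht hτ (hY.big1 h1) g1 g2 y1 y2 hd'
        have d1 := (mem_Icc.1 hd').1
        have d0 : (d : ℝ) ≠ 0 := by positivity
        rw [Dl_smul, abs_mul]
        refine (mul_le_of_le_one_left (abs_nonneg _) (hl d)).trans
          (hE a b N g d _ ha hb h1 hS (fun i => (hN i).trans
            (Real.rpow_le_rpow_of_exponent_le x1 (by linarith))) q1 q2 q3 d1 (le_of_eq_of_le ?_ hP))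
        field_simp
    _ = (⌊x ^ lev τ t η⌋₊ : ℝ) * x ^ (1 - η / 5) := by simp
    _ ≤ x ^ (η / 20) * x ^ (1 - η / 5) := by gcongr; exact cnt_Ta2 x1 τ t η
    _ ≤ _ := by
        rw [← Real.rpow_add x0]
        exact Real.rpow_le_rpow_of_exponent_le x1 (by linarith)

theorem yTb (hY : Y.Sd) : TbG Y := by
  intro hE ι _ τ t η K ht htτ hτ hη hη'
  obtain ⟨γ₀, h0, hE⟩ := hE ι τ t η K ht htτ hτ hη hη'
  refine ⟨min γ₀ ((τ - t) / 4), lt_min h0 (by linarith), ?_⟩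
  have g1 := min_le_left γ₀ ((τ - t) / 4)
  have g2 := min_le_right γ₀ ((τ - t) / 4)
  generalize min γ₀ ((τ - t) / 4) = γ at g1 g2
  filter_upwards [hE, eventually_ge_atTop 1] with x hE x1
  intro a b1 b2 N g l1 l2 y1 y2 ha hb1 hb2 h1 hS hN u1 u2 v1 v2 hP hl1 hl2 hd1 hd2
  have x0 : 0 < x := by linarith
  have e : (∏ i, g i) * pm (l1 * zt) (oy y1) * pm (l2 * zt) (oy y2) =
      ∑ d ∈ Icc 1 ⌊x ^ lev τ t η⌋₊, ∑ d' ∈ Icc 1 ⌊x ^ lev τ t η⌋₊,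
        (l1 d * l2 d') • (sgl (d * d') * (∏ i, g i) * omz (y1 / d) * omz (y2 / d')) := by
    rw [pm_exp_Ta2 fun d h => Nat.le_floor (hd1 d h), pm_exp_Ta2 fun d h => Nat.le_floor (hd2 d h),
      mul_assoc, sum_mul_sum, mul_sum]
    refine sum_congr rfl fun d hd => ?_
    rw [mul_sum]
    refine sum_congr rfl fun d' _ => ?_
    rw [smul_mul_smul_comm, mul_smul_comm,
      ← sgl_mul_Ta2 (Nat.one_le_iff_ne_zero.1 (mem_Icc.1 hd).1)]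
    congr 1
    ring
  rw [e, Dl_sum]
  calc _ ≤ ∑ d ∈ Icc 1 ⌊x ^ lev τ t η⌋₊, ∑ d' ∈ Icc 1 ⌊x ^ lev τ t η⌋₊, x ^ (1 - η / 5) := by
        refine (abs_sum_le_sum_abs _ _).trans (sum_le_sum fun d hd => ?_)
        rw [Dl_sum]
        refine (abs_sum_le_sum_abs _ _).trans (sum_le_sum fun d' hd' => ?_)
        obtain ⟨q1, q2, q3⟩ := range_Ta2 x1 ht hτ (hY.big12 h1).1 g1 g2 u1 u2 hd
        obtain ⟨r1, r2, r3⟩ := range_Ta2 x1 ht hτ (hY.big12 h1).2 g1 g2 v1 v2 hd'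
        have d1 := (mem_Icc.1 hd).1
        have d2 := (mem_Icc.1 hd').1
        have d0 : (d : ℝ) ≠ 0 := by positivity
        have d0' : (d' : ℝ) ≠ 0 := by positivity
        rw [Dl_smul, abs_mul, abs_mul]
        refine (mul_le_of_le_one_left (abs_nonneg _)
          (mul_le_one₀ (hl1 d) (abs_nonneg _) (hl2 d'))).trans
          (hE a b1 b2 N g (d * d') _ _ ha hb1 hb2 h1 hS (fun i => (hN i).trans
            (Real.rpow_le_rpow_of_exponent_le x1 (by linarith))) q1 q2 r1 r2 q3 r3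
            (Nat.mul_pos d1 d2) (le_of_eq_of_le ?_ hP))
        push_cast
        field_simp
    _ = (⌊x ^ lev τ t η⌋₊ : ℝ) * (⌊x ^ lev τ t η⌋₊ * x ^ (1 - η / 5)) := by simp
    _ ≤ x ^ (η / 20) * (x ^ (η / 20) * x ^ (1 - η / 5)) := by
        gcongr <;> exact cnt_Ta2 x1 τ t η
    _ = _ := by
        rw [← Real.rpow_add x0, ← Real.rpow_add x0]
        congr 1
        ring

theorem yBox (hY : Y.Sd) : BoxG Y := by
  intro hTa hTb hE1 hE2 hE12 ι _ τ t η η' κ K w A ht htτ hτ hη hη1 hη' hκ hlev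
  obtain ⟨γ2, hγ2, h2⟩ := hE2 (Option (Option ι)) τ t η' K A ht htτ hτ hη'
  obtain ⟨γa, hγa, ha⟩ := hTa hE1 (Option ι) τ t η K ht htτ hτ hη hη1
  obtain ⟨γb, hγb, hb⟩ := hTb hE12 ι τ t η K ht htτ hτ hη hη1
  obtain ⟨γ, hγ, g2, ga, gb, g1⟩ : ∃ γ : ℝ, 0 < γ ∧ 2 * γ ≤ γ2 ∧ 2 * γ ≤ γa ∧ 2 * γ ≤ γb ∧
      γ ≤ 1 / 100 := by
    refine ⟨min (min γ2 γa) (min γb (1 / 50)) / 2, by positivity, ?_, ?_, ?_, ?_⟩
    · linarith [min_le_left (min γ2 γa) (min γb (1 / 50)), min_le_left γ2 γa]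
    · linarith [min_le_left (min γ2 γa) (min γb (1 / 50)), min_le_right γ2 γa]
    · linarith [min_le_right (min γ2 γa) (min γb (1 / 50)), min_le_left γb (1 / 50)]
    · linarith [min_le_right (min γ2 γa) (min γb (1 / 50)), min_le_right γb (1 / 50)]
  refine ⟨γ, hγ, ?_⟩
  filter_upwards [h2, ha, hb, log_One (η / 20) (by positivity) A, eventually_ge_atTop 1,
    (tendsto_rpow_atTop hγ).eventually_ge_atTop 3,
    (tendsto_rpow_atTop (show (0 : ℝ) < 1 / 25 by norm_num)).eventually_ge_atTop 2,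
    (tendsto_rpow_atTop (show 0 < η / 20 by positivity)).eventually_ge_atTop 3]
    with x h2 ha hb hlog x1 xγ x25 xη
  intro lam e hF pr c b1 b2 N g k1 k2 hc hb1 hb2 hsum hAlt hsl hg0 hN hpr y1 y1' y2 y2' hprod
  have x0 : 0 < x := by linarith
  have hs0 : 0 ≤ ∑ i, c i := sum_nonneg fun i _ => hc i
  have hc1 : ∀ i, 0 ≤ c i ∧ c i ≤ 1 := fun i =>
    ⟨hc i, by linarith [single_le_sum (f := c) (fun j _ => hc j) (mem_univ i)]⟩
  have b11 : b1 ≤ 1 := by linarith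
  have b21 : b2 ≤ 1 := by linarith
  have hH : Nn (∏ i, g i) := Nn.prod fun i _ => hg0 i
  have e12 := hF.er_nn x0.le hH k1 k2
  have e21 := hF.er_nn x0.le hH k2 k1
  have hp0 : 0 ≤ ∏ i, (N i : ℝ) := prod_nonneg fun i _ => Nat.cast_nonneg _
  have h3 : 3 * x ^ (1 - η / 10) ≤ x / Real.log x ^ A := by
    refine le_trans ?_ hlog
    rw [show 1 - η / 20 = η / 20 + (1 - η / 10) by ring, Real.rpow_add x0]
    exact mul_le_mul_of_nonneg_right xη (by positivity)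
  have h4 : 0 ≤ x ^ (1 - η / 10) := by positivity
  have sl : ∀ d, lam d ≠ 0 → (d : ℝ) ≤ x ^ lev τ t η := fun d hd =>
    (hF.s1 d hd).trans (Real.rpow_le_rpow_of_exponent_le x1 hlev)
  have se : ∀ d, e d ≠ 0 → (d : ℝ) ≤ x ^ lev τ t η := fun d hd =>
    (hF.s2 d hd).trans (Real.rpow_le_rpow_of_exponent_le x1 hlev)
  have big : ∀ {b : ℝ} {k : ℕ}, 1 / 10 ≤ b → x ^ (b - γ) ≤ yk_T1 k →
      2 * x ^ (1 / 20 : ℝ) ≤ yk_T1 k := fun {b k} h5 h6 => by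
    refine le_trans ?_ h6
    refine (mul_le_mul_of_nonneg_right x25 (by positivity)).trans ?_
    rw [← Real.rpow_add x0]
    exact Real.rpow_le_rpow_of_exponent_le x1 (by linarith)
  have lo : ∀ {b γ' y : ℝ}, 2 * γ ≤ γ' → x ^ (b - γ) ≤ y → x ^ (b - γ') ≤ y :=
    fun h5 h6 => (Real.rpow_le_rpow_of_exponent_le x1 (by linarith)).trans h6
  have hi : ∀ {b γ' y : ℝ}, 2 * γ ≤ γ' → y ≤ x ^ (b + γ) → y ≤ x ^ (b + γ') :=
    fun h5 h6 => h6.trans (Real.rpow_le_rpow_of_exponent_le x1 (by linarith))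
  have key : ∀ (b1 b2 : ℝ) (k1 k2 : ℕ), b1 ≤ 1 → 0 ≤ b2 → b2 ≤ 1 →
      x ^ (b1 - γ) ≤ yk_T1 k1 → yk_T1 k1 ≤ x ^ (b1 + γ) →
      x ^ (b2 - γ) ≤ yk_T1 k2 → yk_T1 k2 ≤ x ^ (b2 + γ) →
      (∏ i, (N i : ℝ)) * ⌈yk_T1 k2⌉₊ * ⌈yk_T1 k1⌉₊ ≤ 2 * x →
      Y.q1 τ η K (fun o : Option ι => o.elim b2 c) b1 →
      |Dl t x ((∏ i, g i) * pc (RR x κ) k2 * pc (RR x κ) k1)| ≤ x / Real.log x ^ A +
        2 * er x κ lam e (∏ i, g i) k2 k1 := by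
    intro b1 b2 k1 k2 b11 hb2 b21 y1 y1' y2 y2' hprod hE
    have h5 : ∀ l : AF, (∀ d, |l d| ≤ 1) → (∀ d, l d ≠ 0 → (d : ℝ) ≤ x ^ lev τ t η) →
        |Dl t x ((∏ i, g i) * pc (RR x κ) k2 * pc (l * zt) k1)| ≤ x ^ (1 - η / 10) := by
      intro l l1 l2
      have h6 := ha (fun o => o.elim b2 c) b1 (fun o => o.elim ⌈yk_T1 k2⌉₊ N)
        (fun o => o.elim (pc (RR x κ) k2) g) l (yk_T1 k1)
        (by rintro (_ | i); exacts [⟨hb2, b21⟩, hc1 i]) b11 hE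
        (by rintro (_ | i); exacts [slot_Box2 x κ k2, hsl i])
        (by rintro (_ | i); exacts [(near_Box2 x1 xγ hγ ga y2 y2').2, hi ga (hN i).2])
        (lo ga y1) (hi ga y1') (by
          rw [Fintype.prod_option]
          refine le_trans ?_ hprod
          simp only [Option.elim]
          rw [mul_comm _ (∏ i, (N i : ℝ))]
          exact mul_le_mul_of_nonneg_left (Nat.le_ceil _) (by positivity)) l1 l2
      rw [Fintype.prod_option] at h6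
      simp only [Option.elim] at h6
      rwa [mul_comm (pc (RR x κ) k2)] at h6
    have h6 := step_Box2 t hF x1 (hH.mul (nn_pc (nn_RR x κ) k2)) (Le.refl _)
      ((hF.le_up k2).mul_left hH) (big (hY.big1 hE) y1)
    have h7 := h5 lam hF.b1 sl
    have h8 := h5 e hF.b2 se
    unfold er
    linarith
  rcases hAlt with hE | hE | hE | hE
  · have h5 := h2 _ (fun o => o.elim b1 fun o' => o'.elim b2 c)
      (fun o => o.elim ⌈yk_T1 k1⌉₊ fun o' => o'.elim ⌈yk_T1 k2⌉₊ N)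
      (fun o => o.elim (pc (RR x κ) k1) fun o' => o'.elim (pc (RR x κ) k2) g)
      (by rintro (_ | _ | i); exacts [⟨hb1, b11⟩, ⟨hb2, b21⟩, hc1 i]) hE
      (by rintro (_ | _ | i); exacts [slot_Box2 x κ k1, slot_Box2 x κ k2, hsl i])
      (by
        rintro (_ | _ | i)
        exacts [near_Box2 x1 xγ hγ g2 y1 y1', near_Box2 x1 xγ hγ g2 y2 y2',
          ⟨lo g2 (hN i).1, hi g2 (hN i).2⟩])
      (by rintro (_ | _ | i) h; exacts [h.elim, h.elim, hpr i h]) (by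
        rw [Fintype.prod_option, Fintype.prod_option]
        refine le_trans (le_of_eq ?_) hprod
        simp only [Option.elim]
        ring)
    rw [Fintype.prod_option, Fintype.prod_option] at h5
    simp only [Option.elim] at h5
    rw [show (∏ i, g i) * pc (RR x κ) k1 * pc (RR x κ) k2 =
      pc (RR x κ) k1 * (pc (RR x κ) k2 * ∏ i, g i) by ring]
    linarith
  · have h5 := key b1 b2 k1 k2 b11 hb2 b21 y1 y1' y2 y2' (by rwa [mul_right_comm]) hE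
    rw [mul_right_comm]
    linarith
  · have h5 := key b2 b1 k2 k1 b21 hb1 b11 y2 y2' y1 y1' hprod hE
    linarith
  · have h5 : ∀ l1 l2 : AF, (∀ d, |l1 d| ≤ 1) → (∀ d, |l2 d| ≤ 1) →
        (∀ d, l1 d ≠ 0 → (d : ℝ) ≤ x ^ lev τ t η) → (∀ d, l2 d ≠ 0 → (d : ℝ) ≤ x ^ lev τ t η) →
        |Dl t x ((∏ i, g i) * pc (l1 * zt) k1 * pc (l2 * zt) k2)| ≤ x ^ (1 - η / 10) :=
      fun l1 l2 => hb c b1 b2 N g l1 l2 _ _ hc1 b11 b21 hE hsl (fun i => hi gb (hN i).2)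
        (lo gb y1) (hi gb y1') (lo gb y2) (hi gb y2') (le_trans (mul_le_mul
          (mul_le_mul_of_nonneg_left (Nat.le_ceil _) hp0) (Nat.le_ceil _) (yk_pos_T1 k2).le
          (by positivity)) hprod)
    have z1 := big (hY.big12 hE).1 y1
    have z2 := big (hY.big12 hE).2 y2
    have z0 : 0 < x ^ (1 / 20 : ℝ) := by positivity
    have u1 : up x κ lam k1 = pc (lam * zt) k1 := if_neg (by linarith)
    have u2 : up x κ lam k2 = pc (lam * zt) k2 := if_neg (by linarith)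
    have h6 := step_Box2 t hF x1 (hH.mul (nn_pc (nn_RR x κ) k1)) ((hF.le_up k1).mul_left hH)
      (Le.refl _) z2
    have h7 := step_Box2 t hF x1 (hH.mul (hF.nn_up k2)) (Le.refl _) (Le.refl _) z1
    have h8 := h5 lam lam hF.b1 hF.b1 sl sl
    have h9 := h5 lam e hF.b1 hF.b2 sl se
    have h10 := h5 e lam hF.b2 hF.b1 se sl
    unfold er
    rw [u1] at h6 ⊢
    rw [u2] at h7 ⊢
    rw [mul_right_comm _ _ (pc (RR x κ) k1), mul_right_comm _ _ (pc (lam * zt) k1),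
      mul_right_comm _ _ (pc (e * zt) k1)] at h7
    linarith

theorem yOne2 : One2G Y := by
  intro hBox hNom hTa hTb hE1 hE2 hE12 τ t η η' κ z1 z2 lo hi K w r B ht htτ hτ hη hη1 hη' hκ
    hlev hAlt j1 j2 A
  obtain ⟨γ, hγ, h1⟩ := hBox hTa hTb hE1 hE2 hE12 (Fin r ⊕ (Fin j1 ⊕ Fin j2)) τ t η η' κ K w A
    ht htτ hτ hη hη1 hη' hκ hlev
  have h3 := hNom (Fin r ⊕ Fin j1) (Fin j2) (Sum.elim (fun i => (B i).lo) fun _ => κ)
    (Sum.elim (fun i => (B i).hi) fun _ => z1) (fun _ => κ) (fun _ => z2) lo hi fun _ => hκ.le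
  filter_upwards [h1, h3, (tendsto_rpow_atTop hγ).eventually_ge_atTop 4, eventually_gt_atTop 1]
    with x h1 h3 h4 hx
  intro lam e hF N k1 k2 hN hI
  have hx0 : 0 < x := by linarith
  have hlog : 0 < Real.log x := Real.log_pos hx
  set c := cf x κ z1 z2 B j1 j2
  have hc01 : ∀ i n, 0 ≤ c i n ∧ c i n ≤ 1 := by
    rintro (i | i | i) n
    exacts [bf_nn_One x (B i) n, PP_nn_One x κ z1 n, PP_nn_One x κ z2 n]
  have hnn : ∀ i n, 0 ≤ dy (N i) (c i) n := fun i n => (dy_nn_One (N i) (hc01 i) n).1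
  by_cases h0 : Dl t x ((∏ i, dy (N i) (c i)) * pc (RR x κ) k1 * pc (RR x κ) k2) = 0
  · have hG : Nn (∏ i, dy (N i) (c i)) := Nn.prod fun i _ => hnn i
    have a1 := hF.er_nn hx0.le hG k1 k2
    have a2 := hF.er_nn hx0.le hG k2 k1
    rw [h0, abs_zero]
    positivity
  have h5 : ∃ Δ, SS x Δ ((∏ i, dy (N i) (c i)) * (pc (RR x κ) k1 * pc (RR x κ) k2)) ≠ 0 := by
    by_contra k
    push Not at k
    exact h0 (by rw [mul_assoc, Dl, SB, k, k, sub_zero])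
  obtain ⟨Δ, h5⟩ := h5
  obtain ⟨m, l, hm, hl, w1, w2⟩ := dVan _ x Δ _ _ hx0 h5
  obtain ⟨n1, n2, rfl, l1, l2⟩ := exists_of_mul_ne hl
  obtain ⟨-, y1, y1'⟩ := pc_ne l1
  obtain ⟨-, y2, y2'⟩ := pc_ne l2
  have p1 := yk_pos_T1 k1
  have p2 := yk_pos_T1 k2
  have d1 : ∀ i, (N i : ℝ) ≤ m i := fun i => Nat.cast_le.2 (dy_ne_One (hm i)).1.1
  have d2 : ∀ i, (m i : ℝ) ≤ 2 * N i := fun i => by exact_mod_cast (dy_ne_One (hm i)).1.2.le
  have e1 : (∏ i, (m i : ℝ)) * (n1 * n2 : ℕ) =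
      (∏ i : Fin r ⊕ Fin j1, (m (Sum.map id Sum.inl i) : ℝ)) * n1 *
        ((∏ i, (m (.inr (.inr i)) : ℝ)) * n2) := by
    simp only [Fintype.prod_sum_type, Sum.map_inl, Sum.map_inr, id, Nat.cast_mul]
    ring
  obtain ⟨a, q, b1, b2, ha, hq, hb1, c1, hb2, c2, hs, s1, s2⟩ :=
    h3 (fun i => m (Sum.map id Sum.inl i)) (fun i => m (.inr (.inr i))) n1 n2
      (fun i => ⟨(hN _).trans (dy_ne_One (hm _)).1.1, by
        rcases i with i | i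
        · have k4 := bf_ne_One (x := x) (B := B i) (dy_ne_One (hm (.inl i))).2
          exact ⟨k4.2.1.le, k4.2.2.1⟩
        · exact PP_ne_One (κ := κ) (z := z1) hx0.le (dy_ne_One (hm (.inr (.inl i)))).2⟩)
      (fun i => PP_ne_One (κ := κ) (z := z2) hx0.le (dy_ne_One (hm (.inr (.inr i)))).2)
      (Nat.cast_pos.1 (p1.trans y1)) (Nat.cast_pos.1 (p2.trans y2)) (e1 ▸ w1) (e1 ▸ w2)
      (hI.1.trans (mul_le_mul (prod_le_prod (fun i _ => Nat.cast_nonneg _) fun i _ => d1 _) y2.le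
        p2.le (prod_nonneg fun i _ => Nat.cast_nonneg _)))
      (le_trans ((mul_le_mul (prod_le_prod (fun i _ => Nat.cast_nonneg _) fun i _ => d2 _) y2'.le
        (Nat.cast_nonneg _) (prod_nonneg fun i _ => by positivity)).trans_eq (by
          rw [prod_mul_distrib, prod_const, card_univ, Fintype.card_fin]
          ring)) hI.2)
  have hs' : ∑ i, a (.inl i) + (∑ i, a (.inr i) + ∑ i, q i) + b1 + b2 = 1 := by
    rw [← hs, Fintype.sum_sum_type, ← add_assoc]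
  have v1 := win_One2 hx0 h4 c1 y1.le y1'.le
  have v2 := win_One2 hx0 h4 c2 y2.le y2'.le
  refine h1 lam e hF _ _ b1 b2 N _ k1 k2 ?_ hb1 hb2 (by simpa using hs')
    (hAlt j1 j2 (fun i => a (.inl i)) (fun i => a (.inr i)) q b1 b2
      (fun i => ⟨(ha (.inl i)).1, (ha (.inl i)).2.1, (ha (.inl i)).2.2.1⟩)
      (fun i => ⟨(ha (.inr i)).2.1, (ha (.inr i)).2.2.1⟩) (fun i => ⟨(hq i).1, (hq i).2.1⟩)
      hb1 hb2 hs' s1 s2)
    (fun i => slot_One (hN i) (hc01 i)) hnn (fun i => win_One2 hx0 h4 ?_ (d1 i) (d2 i)) ?_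
    v1.1 v1.2 v2.1 v2.2 (le_trans ?_ w2)
  · rintro (i | i | i)
    exacts [(ha _).1, (ha _).1, hκ.le.trans (hq i).1]
  · rcases i with i | i | i
    exacts [(ha (.inl i)).2.2.2, (ha (.inr i)).2.2.2, (hq i).2.2]
  · rintro (i | i | i) hi
    exacts [dPr.1 x (B i) _ hx hi, dPr.2 _ _ _, dPr.2 _ _ _]
  · rw [mul_assoc, ← Nat.cast_mul]
    exact mul_le_mul (prod_le_prod (fun i _ => Nat.cast_nonneg _) fun i _ => d1 i)
      (Nat.cast_le.2 (Nat.mul_le_mul (Nat.ceil_le.2 y1.le) (Nat.ceil_le.2 y2.le)))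
      (Nat.cast_nonneg _) (prod_nonneg fun i _ => Nat.cast_nonneg _)

lemma alt_mono (hY : Y.Sd) {ι : Type} [Fintype ι] {τ η η₀ η' : ℝ} {K : ℕ} {pr : ι → Prop}
    {c : ι → ℝ} {b1 b2 : ℝ} (h : Alt4G Y τ η₀ η' K pr c b1 b2) (hη : η ≤ η₀) :
    Alt4G Y τ η η' K pr c b1 b2 :=
  h.imp id (Or.imp (fun h => hY.mono1 h hη) (Or.imp (fun h => hY.mono1 h hη)
    fun h => hY.mono12 h hη))

theorem yFin2 (hY : Y.Sd) (hFW : FWStmt) (hOm : OmStmt) (hTm : TmStmt) (hTa : TaG Y) (hTb : TbG Y)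
    (hBox : BoxG Y) (hNom : NomStmt2) (hOne : One2G Y) (hErr : ErrStmt) (hES : ESumStmt)
    (hExp : ExpStmt) (hIn : InStmt) (hCut : CutStmt) (hBnd : BndStmt) (hLam : LamStmt)
    (hLay : LayStmt) (hRow : RowStmt2) (hSum : SumStmt2) (h1 : E1G Y) (h2 : E2G Y) (h12 : E12G Y) :
    LeafS2G Y := by
  intro τ t ht hτ hτ2 r B z1 z2 lo hi hB hz1 hz2 hlo hhi hD
  rcases lt_or_ge hi lo with hlh | hlh
  · refine (ev_zero t).congr ?_
    filter_upwards [eventually_ge_atTop 1] with x hx n _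
    have e : bf x ⟨lo, hi, z2, none⟩ = 0 := by
      ext m
      refine bf_of_not fun h => ?_
      have := Real.rpow_le_rpow_of_exponent_le hx hlh.le
      linarith [h.2.1, h.2.2.1]
    rw [e, mul_zero, zero_mul]
  obtain ⟨η₀, hη₀, hD⟩ := hD
  obtain ⟨⟨M, hM1, hM⟩, hP⟩ := dMs
  set η := min η₀ (1 / 1000) with hηd
  have hη : 0 < η := lt_min hη₀ (by norm_num)
  have hl : 0 < lev τ t η := lt_min (by positivity) (by linarith)
  set c := min (min (lev τ t η) (1 / 100)) (min z1 z2) with hc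
  have c0 : 0 < c := lt_min (lt_min hl (by norm_num)) (lt_min hz1 hz2)
  refine ev_iff.2 fun ε hε => ?_
  obtain ⟨w, hw, hs⟩ := small_Fin2 (C := 2 ^ 36 * M ^ r * 36 / c ^ 5) (by positivity)
    (half_pos hε)
  have w0 : (1 : ℝ) ≤ 4 * (w : ℝ) + 6 := by
    have : (0 : ℝ) ≤ w := Nat.cast_nonneg w
    linarith
  set κ := c / (4 * (w : ℝ) + 6) with hκ
  have κ0 : 0 < κ := by positivity
  have κc : κ ≤ c := div_le_self c0.le w0
  have κz1 : κ ≤ z1 := κc.trans ((min_le_right _ _).trans (min_le_left _ _))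
  have κz2 : κ ≤ z2 := κc.trans ((min_le_right _ _).trans (min_le_right _ _))
  have c1 : c ≤ 1 / 100 := (min_le_left _ _).trans (min_le_right _ _)
  have κe : κ * (4 * w + 6) = c := by rw [hκ, div_mul_cancel₀ _ (by linarith)]
  have κl : κ * (4 * w + 6) ≤ lev τ t η := κe.trans_le ((min_le_left _ _).trans (min_le_left _ _))
  obtain ⟨η', hη', K, hK⟩ := hD κ κ0
  have hA : Alt2G Y τ η η' κ z1 z2 lo hi K B := fun j1 j2 a q1 q2 b1 b2 a1 a2 a3 a4 a5 a6 a7 a8 =>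
    alt_mono hY (hK j1 j2 a q1 q2 b1 b2 a1 a2 a3 a4 a5 a6 a7 a8) (min_le_left _ _)
  have hO := hOne hBox hNom hTa hTb h1 h2 h12 τ t η η' κ z1 z2 lo hi K w r B ht hτ hτ2 hη
    (min_le_right _ _) hη' κ0 κl hA
  have m0 : 0 ≤ Real.log (6 / κ) := Real.log_nonneg (by
    rw [le_div_iff₀ κ0]
    linarith)
  have t0 : 0 < t := by linarith
  have t1 : t < 1 / 2 := by linarith
  have hR := fun j1 j2 => hRow hCut hBnd hLay hLam hFW t κ z1 z2 lo hi _ r j1 j2 B t0 t1 κ0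
    (fun i => by linarith [hB i]) hlo hlh hhi
    (hIn hExp hES hErr hTm hOm hFW t κ z1 z2 lo hi M (Real.log (6 / κ)) w r j1 j2 B κ0 hw
      (κe.trans_le c1) (hO j1 j2) (hM.mono fun x hx i => hx _ (hB i))
      (hP κ z1 κ0 (by linarith)) (hP κ z2 κ0 (by linarith)))
  have hS := fun j1 => hSum t κ z2 lo hi
    (2 ^ 36 / 4 ^ w / κ ^ 3 * M ^ r * Real.log (6 / κ) ^ j1) (Real.log (6 / κ))
    (fun x => (∏ i, bf x (B i)) * PP x κ z1 ^ j1 * RR x κ) t0 t1 κ0 κz2 (by positivity) m0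
    (fun δ hδ => div_Fin2 B κ z1 j1 hδ) (hR j1)
  have e : ∀ x : ℝ, ∏ i, bf x ((Fin.snoc B ⟨lo, hi, z2, none⟩ : Fin (r + 1) → Blk) i) =
      (∏ i, bf x (B i)) * bf x ⟨lo, hi, z2, none⟩ := fun x => by
    rw [Fin.prod_univ_castSucc]
    simp only [Fin.snoc_castSucc, Fin.snoc_last]
  have hT := dSum dId dBad dSZ t κ z1 (2 ^ 36 / 4 ^ w / κ ^ 3 * M ^ r * (6 / κ))
    (Real.log (6 / κ)) (r + 1) (Fin.snoc B ⟨lo, hi, z2, none⟩) t0 t1 κ0 κz1 (by positivity) m0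
    (fun j ε' hε' => (hS j ε' hε').mono fun x hx => by
      rw [Real.exp_log (by positivity)] at hx
      rw [e]
      convert hx using 3
      · unfold RR
        ring
      · ring) (ε / 2) (half_pos hε)
  filter_upwards [hT, eventually_gt_atTop 1] with x hx x1
  rw [e, Real.exp_log (by positivity)] at hx
  refine hx.trans (mul_le_mul_of_nonneg_right ?_
    (div_nonneg (by linarith) (Real.log_pos x1).le))
  have e2 : 2 ^ 36 / 4 ^ w / κ ^ 3 * M ^ r * (6 / κ) * (6 / κ) =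
      2 ^ 36 * M ^ r * 36 / c ^ 5 * (4 * (w : ℝ) + 6) ^ 5 / 4 ^ w := by
    rw [hκ]
    field_simp
    ring
  rw [e2]
  linarith

theorem leafS2G (h : Y.OK) : LeafS2G Y :=
  yFin2 h.sd d2FW d2Om d2Tm (yTa h.sd) (yTb h.sd) (yBox h.sd) d2Nom yOne2 d2Err d2ESum d2Exp d2In d2Cut
    d2Bnd d2Lam d2Lay d2Row d2Sum h.e1 h.e2 h.e12

end Pool.Agent.MP_c853c5_nt.Y
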