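import Pool.Agent.MP_c853c5_nt.S.EAll
import Pool.Agent.MP_c853c5_nt.R.WAll
import Pool.Agent.MP_c853c5_nt.W.Main
import Pool.Agent.MP_c853c5_nt.DT.All
import Pool.Agent.MP_c853c5_nt.DT.Win
import Pool.Agent.MP_c853c5_nt.Y.One
import Pool.Agent.MP_c853c5_nt.Y.Two

/-!
The systems of box estimates hold.
-/

set_option autoImplicit false

namespace Pool.Agent.MP_c853c5_nt.Y

theorem okW : sysW.OK :=
  sysW_ok (R.e1dW_exp S.exp_all W.wattD_all) (R.e12dW_exp S.exp_all W.wattD_all) S.e2d_all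

theorem okD : DT.sysD.OK := DT.sysD_ok okW DT.e3d_all

theorem lSD : LeafSG DT.sysD := leafSG okD

theorem lS2D : LeafS2G DT.sysD := leafS2G okD

theorem l2D : Leaf2G DT.sysD := leaf2G okD

end Pool.Agent.MP_c853c5_nt.Y
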