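import Pool.Agent.MP_c853c5_nt.S.Defs2

/-!
The leaves for an arbitrary system of box estimates.
-/

set_option autoImplicit false

open Finset Filter

namespace Pool.Agent.MP_c853c5_nt.Y

open Pool.Agent.MP_c853c5_nt.S

/-- conditions for one smooth factor, two smooth factors, no smooth factor -/
structure Sys where
  q1 : ∀ {ι : Type} [Fintype ι], ℝ → ℝ → ℕ → (ι → ℝ) → ℝ → Prop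
  q12 : ∀ {ι : Type} [Fintype ι], ℝ → ℝ → ℕ → (ι → ℝ) → ℝ → ℝ → Prop
  q2 : ∀ {ι : Type} [Fintype ι], ℝ → ℝ → ℕ → (ι → Prop) → (ι → ℝ) → Prop

def E1G (Y : Sys) : Prop := ∀ (ι : Type) [Fintype ι] (τ t η : ℝ) (K : ℕ), 1 / 3 ≤ t → t < τ →
  τ ≤ 1 / 2 → 0 < η → η ≤ 1 / 1000 → ∃ γ : ℝ, 0 < γ ∧ ∀ᶠ x : ℝ in atTop,
    ∀ (a : ι → ℝ) (b : ℝ) (N : ι → ℕ) (g : ι → AF) (d : ℕ) (y : ℝ),
      (∀ i, 0 ≤ a i ∧ a i ≤ 1) → b ≤ 1 → Y.q1 τ η K a b → (∀ i, Slot (N i) (g i)) →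
      (∀ i, (N i : ℝ) ≤ x ^ (a i + γ)) → x ^ (b - (τ - t) / 2) ≤ y → y ≤ x ^ (b + γ) →
      1 ≤ y → 1 ≤ d → (d : ℝ) * (∏ i, (N i : ℝ)) * y ≤ 2 * x →
      |Dl t x (sgl d * (∏ i, g i) * omz y)| ≤ x ^ (1 - η / 5)

def E12G (Y : Sys) : Prop := ∀ (ι : Type) [Fintype ι] (τ t η : ℝ) (K : ℕ), 1 / 3 ≤ t → t < τ →
  τ ≤ 1 / 2 → 0 < η → η ≤ 1 / 1000 → ∃ γ : ℝ, 0 < γ ∧ ∀ᶠ x : ℝ in atTop,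
    ∀ (a : ι → ℝ) (b1 b2 : ℝ) (N : ι → ℕ) (g : ι → AF) (d : ℕ) (y1 y2 : ℝ),
      (∀ i, 0 ≤ a i ∧ a i ≤ 1) → b1 ≤ 1 → b2 ≤ 1 → Y.q12 τ η K a b1 b2 →
      (∀ i, Slot (N i) (g i)) → (∀ i, (N i : ℝ) ≤ x ^ (a i + γ)) →
      x ^ (b1 - (τ - t) / 2) ≤ y1 → y1 ≤ x ^ (b1 + γ) →
      x ^ (b2 - (τ - t) / 2) ≤ y2 → y2 ≤ x ^ (b2 + γ) →
      1 ≤ y1 → 1 ≤ y2 → 1 ≤ d → (d : ℝ) * (∏ i, (N i : ℝ)) * y1 * y2 ≤ 2 * x →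
      |Dl t x (sgl d * (∏ i, g i) * omz y1 * omz y2)| ≤ x ^ (1 - η / 5)

def E2G (Y : Sys) : Prop := ∀ (ι : Type) [Fintype ι] (τ t η : ℝ) (K A : ℕ), 1 / 3 ≤ t → t < τ →
  τ ≤ 1 / 2 → 0 < η → ∃ γ : ℝ, 0 < γ ∧ ∀ᶠ x : ℝ in atTop,
    ∀ (pr : ι → Prop) (a : ι → ℝ) (N : ι → ℕ) (g : ι → AF), (∀ i, 0 ≤ a i ∧ a i ≤ 1) →
      Y.q2 τ η K pr a → (∀ i, Slot (N i) (g i)) →
      (∀ i, x ^ (a i - γ) ≤ N i ∧ (N i : ℝ) ≤ x ^ (a i + γ)) →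
      (∀ i, pr i → ∃ P Q : ℕ, g i = prI P Q) →
      (∏ i, (N i : ℝ)) ≤ 2 * x →
      |Dl t x (∏ i, g i)| ≤ x / Real.log x ^ A

/-- elementary properties -/
structure Sys.Sd (Y : Sys) : Prop where
  big1 : ∀ {ι : Type} [Fintype ι] {τ η : ℝ} {K : ℕ} {a : ι → ℝ} {b : ℝ},
    Y.q1 τ η K a b → 1 / 10 ≤ b
  big12 : ∀ {ι : Type} [Fintype ι] {τ η : ℝ} {K : ℕ} {a : ι → ℝ} {b1 b2 : ℝ},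
    Y.q12 τ η K a b1 b2 → 1 / 10 ≤ b1 ∧ 1 / 10 ≤ b2
  mono1 : ∀ {ι : Type} [Fintype ι] {τ η η' : ℝ} {K : ℕ} {a : ι → ℝ} {b : ℝ},
    Y.q1 τ η K a b → η' ≤ η → Y.q1 τ η' K a b
  mono12 : ∀ {ι : Type} [Fintype ι] {τ η η' : ℝ} {K : ℕ} {a : ι → ℝ} {b1 b2 : ℝ},
    Y.q12 τ η K a b1 b2 → η' ≤ η → Y.q12 τ η' K a b1 b2

/-- the box estimates hold -/
structure Sys.OK (Y : Sys) : Prop where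
  sd : Y.Sd
  e1 : E1G Y
  e12 : E12G Y
  e2 : E2G Y

def Reg2G (Y : Sys) {r : ℕ} (τ : ℝ) (B : Fin r → Blk) : Prop := ∃ η : ℝ, 0 < η ∧ ∃ K : ℕ,
  ∀ a : Fin r → ℝ, InBox B a → ∑ i, a i = 1 → Y.q2 τ η K (fun i => (B i).IsP) a

def DustOKG (Y : Sys) {r : ℕ} (τ : ℝ) (B : Fin r → Blk) (z : ℝ) : Prop := ∃ η : ℝ, 0 < η ∧
  ∀ κ : ℝ, 0 < κ → ∃ η' : ℝ, 0 < η' ∧ ∃ K : ℕ,
    ∀ (j : ℕ) (a : Fin r → ℝ) (q : Fin j → ℝ) (b : ℝ), InBox B a → (∀ i, κ ≤ q i ∧ q i ≤ z) →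
      0 ≤ b → ∑ i, a i + ∑ i, q i + b = 1 →
      Y.q1 τ η K (Sum.elim a q) b ∨
        Y.q2 τ η' K
          (fun o : Option (Fin r ⊕ Fin j) =>
            o.elim False (Sum.elim (fun i => (B i).IsP) fun _ => True))
          (fun o => o.elim b (Sum.elim a q))

def Alt4G (Y : Sys) {ι : Type} [Fintype ι] (τ η η' : ℝ) (K : ℕ) (pr : ι → Prop) (c : ι → ℝ) (b1 b2 : ℝ) :
    Prop :=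
  Y.q2 τ η' K (fun o : Option (Option ι) => o.elim False fun o' => o'.elim False pr)
      (fun o => o.elim b1 fun o' => o'.elim b2 c) ∨
    Y.q1 τ η K (fun o : Option ι => o.elim b2 c) b1 ∨
    Y.q1 τ η K (fun o : Option ι => o.elim b1 c) b2 ∨ Y.q12 τ η K c b1 b2

def DustOK2G (Y : Sys) {r : ℕ} (τ : ℝ) (B : Fin r → Blk) (z1 z2 lo hi : ℝ) : Prop := ∃ η : ℝ, 0 < η ∧
  ∀ κ : ℝ, 0 < κ → ∃ η' : ℝ, 0 < η' ∧ ∃ K : ℕ,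
    ∀ (j1 j2 : ℕ) (a : Fin r → ℝ) (q1 : Fin j1 → ℝ) (q2 : Fin j2 → ℝ) (b1 b2 : ℝ), InBox B a →
      (∀ i, κ ≤ q1 i ∧ q1 i ≤ z1) → (∀ i, κ ≤ q2 i ∧ q2 i ≤ z2) → 0 ≤ b1 → 0 ≤ b2 →
      ∑ i, a i + (∑ i, q1 i + ∑ i, q2 i) + b1 + b2 = 1 →
      lo ≤ ∑ i, q2 i + b2 → ∑ i, q2 i + b2 ≤ hi →
      Alt4G Y τ η η' K
        (Sum.elim (fun i => (B i).IsP) fun _ : Fin j1 ⊕ Fin j2 => True)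
        (Sum.elim a (Sum.elim q1 q2)) b1 b2

def Leaf2G (Y : Sys) : Prop := ∀ τ t : ℝ, 1 / 3 ≤ t → t < τ → τ ≤ 1 / 2 →
  ∀ (r : ℕ) (B : Fin r → Blk), Reg2G Y τ B → Ev t fun x => ∏ i, bf x (B i)

def LeafSG (Y : Sys) : Prop := ∀ τ t : ℝ, 1 / 3 ≤ t → t < τ → τ ≤ 1 / 2 →
  ∀ (r : ℕ) (B : Fin r → Blk) (z : ℝ), (∀ i, 1 / 100 ≤ (B i).a) → 0 < z → DustOKG Y τ B z →
    Ev t fun x => (∏ i, bf x (B i)) * bf x (fr z)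

def LeafS2G (Y : Sys) : Prop := ∀ τ t : ℝ, 1 / 3 ≤ t → t < τ → τ ≤ 1 / 2 →
  ∀ (r : ℕ) (B : Fin r → Blk) (z1 z2 lo hi : ℝ), (∀ i, 1 / 100 ≤ (B i).a) → 0 < z1 → 0 < z2 →
    1 / 100 ≤ lo → hi ≤ 99 / 100 → DustOK2G Y τ B z1 z2 lo hi →
    Ev t fun x => (∏ i, bf x (B i)) * bf x ⟨lo, hi, z2, none⟩ * bf x (fr z1)

/-- the basic system -/
def sys0 : Sys := ⟨E1pt, E12pt, E2pt⟩

lemma sys0_sd : sys0.Sd :=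
  ⟨fun h => h.1, fun h => ⟨h.1, h.2.1⟩,
    fun h hη => ⟨h.1, fun r v h0 h1 h2 h3 => (h.2 r v h0 h1 h2 h3).trans (by linarith)⟩,
    fun h hη => ⟨h.1, h.2.1, fun r v h0 h1 h2 h3 => (h.2.2 r v h0 h1 h2 h3).trans (by linarith)⟩⟩

end Pool.Agent.MP_c853c5_nt.Y
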