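import Pool.Agent.MP_c853c5_nt.Y.One
import Pool.Agent.MP_c853c5_nt.Y.Two

/-!
The leaves for blocks of arbitrary positive level.
-/

set_option autoImplicit false

open Finset Filter

namespace Pool.Agent.MP_c853c5_nt.Y

open Pool.Agent.MP_c853c5_nt.S Pool.Agent.MP_c853c5_nt.D Pool.Agent.MP_c853c5_nt.D2

def LeafSH (Y : Sys) : Prop := ∀ τ t : ℝ, 1 / 3 ≤ t → t < τ → τ ≤ 1 / 2 →
  ∀ (r : ℕ) (B : Fin r → Blk) (z : ℝ), (∀ i, 0 < (B i).a) → 0 < z → DustOKG Y τ B z →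
    Ev t fun x => (∏ i, bf x (B i)) * bf x (fr z)

def LeafS2H (Y : Sys) : Prop := ∀ τ t : ℝ, 1 / 3 ≤ t → t < τ → τ ≤ 1 / 2 →
  ∀ (r : ℕ) (B : Fin r → Blk) (z1 z2 lo hi : ℝ), (∀ i, 0 < (B i).a) → 0 < z1 → 0 < z2 →
    0 < lo → hi < 1 → DustOK2G Y τ B z1 z2 lo hi →
    Ev t fun x => (∏ i, bf x (B i)) * bf x ⟨lo, hi, z2, none⟩ * bf x (fr z1)

def LamP : Prop := FWStmt → ∀ κ c C ε : ℝ, 0 < κ → 0 < c → 1 ≤ C → 0 < ε →
  ∀ᶠ x : ℝ in atTop, ms ⌊2 * x⌋₊ (pm (RR x κ) (rg (x ^ c / C) (C * x ^ c))) ≤ ε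

def LayP : Prop := LamP → FWStmt → ∀ κ c C s ε : ℝ, 0 < κ → 0 < c →
  c < 1 → 1 ≤ C → 0 < s → s < 1 / 2 → 0 < ε → ∀ᶠ x : ℝ in atTop,
    SS x (x ^ (-s)) (RR x κ * pm (RR x κ) (rg (x ^ c / C) (C * x ^ c))) ≤ ε * (x / Real.log x)

def RowP : Prop := CutStmt → BndStmt → LayP → LamP → FWStmt →
  ∀ (t κ z1 z2 lo hi E : ℝ) (r j1 j2 : ℕ) (B : Fin r → Blk), 0 < t → t < 1 / 2 → 0 < κ →
    (∀ i, κ ≤ (B i).a) → 0 < lo → lo ≤ hi → hi < 1 →
    (∀ ε : ℝ, 0 < ε → ∀ᶠ x : ℝ in atTop,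
      |Dl t x ((∏ i, bf x (B i)) * PP x κ z1 ^ j1 * RR x κ *
        inn (PP x κ z2) (RR x κ) j2 (LL x) (nn x) (x ^ lo) (x ^ hi))| ≤
      (ε + E) * (x / Real.log x)) →
    ∀ ε : ℝ, 0 < ε → ∀ᶠ x : ℝ in atTop,
      |Dl t x ((∏ i, bf x (B i)) * PP x κ z1 ^ j1 * RR x κ *
        pm (PP x κ z2 ^ j2 * RR x κ) (rg (x ^ lo) (x ^ hi)))| ≤ (ε + E) * (x / Real.log x)

theorem lamP : LamP := by
  intro hF κ c C ε hκ hc hC hε
  obtain ⟨k, hk⟩ : ∃ k : ℝ, k = min κ (c / 200) := ⟨_, rfl⟩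
  have k0 : 0 < k := hk ▸ lt_min hκ (by positivity)
  have k1 : k ≤ κ := hk ▸ min_le_left _ _
  have k2 : k ≤ c / 200 := hk ▸ min_le_right _ _
  have hL : 0 ≤ Real.log (C ^ 2) := Real.log_nonneg (one_le_pow₀ hC)
  have t1 : ∀ᶠ x : ℝ in atTop, Real.log (C ^ 2) * 8 / (k * ε) ≤ Real.log x :=
    Real.tendsto_log_atTop.eventually_ge_atTop _
  have t2 : ∀ᶠ x : ℝ in atTop, max (16 * C / ε) (2 * C) ≤ x ^ (c / 2) :=
    (tendsto_rpow_atTop (by positivity)).eventually_ge_atTop _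
  filter_upwards [hF k 13 k0 le_rfl, t1, t2, eventually_gt_atTop 1] with x ⟨lam, e, H⟩ h1 h2 hx
  have hx0 : 0 < x := by linarith
  have hC0 : 0 < C := by linarith
  obtain ⟨u, hu⟩ : ∃ u : ℝ, u = x ^ (c / 2) := ⟨_, rfl⟩
  rw [← hu] at h2
  have u1 : 1 ≤ u := hu ▸ Real.one_le_rpow hx.le (by positivity)
  have u2 : u * u ≤ x ^ c := by
    rw [hu, ← Real.rpow_add hx0]
    exact Real.rpow_le_rpow_of_exponent_le hx.le (by linarith)
  have hxc : 0 < x ^ c := Real.rpow_pos_of_pos hx0 c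
  obtain ⟨N, hN⟩ : ∃ N : ℕ, N = ⌈x ^ (k * (4 * (13 : ℕ) + 6))⌉₊ := ⟨_, rfl⟩
  have n1 : x ^ (k * (4 * (13 : ℕ) + 6)) ≤ N := hN ▸ Nat.le_ceil _
  have n2 : (N : ℝ) ≤ 2 * u := by
    have a1 : x ^ (k * (4 * (13 : ℕ) + 6)) ≤ u := by
      rw [hu]
      refine Real.rpow_le_rpow_of_exponent_le hx.le ?_
      push_cast
      linarith
    have a2 := Nat.ceil_lt_add_one (Real.rpow_pos_of_pos hx0 (k * (4 * (13 : ℕ) + 6))).le
    rw [← hN] at a2
    linarith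
  have hA0 : 0 < x ^ c / C := div_pos hxc hC0
  have n3 : (N : ℝ) ≤ x ^ c / C := by
    rw [le_div_iff₀ hC0]
    have := (le_max_right _ _).trans h2
    nlinarith
  have hAB : x ^ c / C ≤ C * x ^ c :=
    (div_le_self hxc.le hC).trans (le_mul_of_one_le_left hxc.le hC)
  have hR : Le (RR x κ) (lam * zt) := fun n =>
    (le_bf (B := fr κ) (C := fr k) (fun m hm =>
      ⟨hm.1, hm.2.1, hm.2.2.1, hm.2.2.2.1.anti hx.le k1, fun _ h => by simp [fr] at h⟩) n).trans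
      (H.maj n)
  refine (layer_Lam2 (nn_RR x κ) hR hA0.le hAB _).trans
    ((diff_Lam2 H.b1 (fun d hd => ?_) hA0 n3 hAB).trans ?_)
  · exact_mod_cast (H.s1 d hd).trans n1
  · have e1 : C * x ^ c / (x ^ c / C) = C ^ 2 := by field_simp
    have hl : 0 < Real.log x := Real.log_pos hx
    have b1 : Real.log (C ^ 2) * ms N lam ≤ ε / 2 := by
      refine (mul_le_mul_of_nonneg_left (H.m1 N n1) hL).trans ?_
      rw [div_le_iff₀ (by positivity)] at h1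
      rw [← mul_div_assoc, div_le_iff₀ (by positivity)]
      linarith
    have b2 : 4 * (N : ℝ) / (x ^ c / C) ≤ ε / 2 := by
      have a1 := (le_max_left _ _).trans h2
      rw [div_le_iff₀ hε] at a1
      rw [div_div_eq_mul_div, div_le_iff₀ hxc]
      have a2 : 4 * (N : ℝ) * C ≤ 4 * (2 * u) * C :=
        mul_le_mul_of_nonneg_right (by linarith) hC0.le
      have a3 : ε / 2 * (u * u) ≤ ε / 2 * x ^ c := mul_le_mul_of_nonneg_left u2 (by linarith)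
      nlinarith
    rw [e1]
    linarith

lemma halfP (hL : LamP) (hF : FWStmt) {κ c C s ε : ℝ} (hκ : 0 < κ) (hc : 0 < c)
    (hc2 : c ≤ 1 / 2) (hC : 1 ≤ C) (hs : 0 < s) (hs2 : s < 1 / 2) (hε : 0 < ε) :
    ∀ᶠ x : ℝ in atTop, SS x (x ^ (-s)) (RR x κ * pm (RR x κ) (rg (x ^ c / C) (C * x ^ c))) ≤
      ε * (x / Real.log x) := by
  obtain ⟨C0, h0, hZ⟩ := dSZ
  obtain ⟨d, hd⟩ : ∃ d, d = 1 / 2 - s := ⟨_, rfl⟩
  have d0 : 0 < d := by linarith
  obtain ⟨k, k0, k1, k2⟩ : ∃ k, 0 < k ∧ k ≤ κ ∧ k ≤ d / 200 :=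
    ⟨min κ (d / 200), by positivity, min_le_left _ _, min_le_right _ _⟩
  filter_upwards [hF k 13 k0 le_rfl, hL hF κ c C (ε * k / 16) hκ hc hC (by positivity),
    small_Sum (d / 4) (ε / 2) (by positivity) (by positivity), eventually_gt_atTop (1 : ℝ),
    E.ev_const_le C (γ := d / 4) (by positivity),
    E.ev_const_le (C0 * C) (γ := d / 4) (by positivity)] with x ⟨lam, e, hW⟩ h1 h2 hx h3 h4
  have x0 : 0 < x := by linarith
  have l0 := Real.log_pos hx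
  set Y := pm (RR x κ) (rg (x ^ c / C) (C * x ^ c)) with hY
  have n1 : Nn Y := nn_pm (nn_RR x κ) (rg_nn _ _)
  have n2 : ∀ n, |Y n| ≤ 1 := fun n =>
    (abs_of_nonneg (n1 n)).trans_le ((pm_le (nn_RR x κ) (rg_le _ _) n).trans (bf_le_one _ _ n))
  have n3 : ∀ n, Y n ≠ 0 → (n : ℝ) ≤ C * x ^ (1 / 2 : ℝ) := fun n hn => by
    have h5 : rg (x ^ c / C) (C * x ^ c) n ≠ 0 := right_ne_zero_of_mul hn
    have h6 : (n : ℝ) ≤ C * x ^ c := by_contra fun h => h5 (if_neg fun h' => h h'.2)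
    exact h6.trans (mul_le_mul_of_nonneg_left (Real.rpow_le_rpow_of_exponent_le hx.le hc2)
      (by linarith))
  have b1 : x ^ (1 / 2 : ℝ) * x ^ (k * (4 * (13 : ℕ) + 6)) ≤ x ^ (1 / 2 + d / 2) := by
    rw [← Real.rpow_add x0]
    refine Real.rpow_le_rpow_of_exponent_le hx.le ?_
    push_cast
    linarith
  have b2 : C * x ^ (1 / 2 : ℝ) * x ^ (k * (4 * (13 : ℕ) + 6)) ≤ ⌊2 * x⌋₊ := by
    rw [mul_assoc]
    refine (mul_le_mul h3 b1 (by positivity) (by positivity)).trans ?_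
    rw [← Real.rpow_add x0]
    refine (Real.rpow_le_self_of_one_le hx.le (by linarith)).trans ?_
    linarith [Nat.lt_floor_add_one (2 * x)]
  have b3 : 1 ≤ C * x ^ (1 / 2 : ℝ) :=
    one_le_mul_of_one_le_of_one_le hC (Real.one_le_rpow hx.le (by norm_num))
  have b4 : 1 ≤ x ^ (k * (4 * (13 : ℕ) + 6)) := Real.one_le_rpow hx.le (by positivity)
  obtain ⟨m1, m2⟩ := long_T1R (ι := Unit) (g := fun _ => Y) (A := fun _ => C * x ^ (1 / 2 : ℝ))
    (fun _ => b3) b4 (fun _ => n1) (fun _ => n2) (fun _ => n3) hW.b1 hW.s1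
    (by rwa [Fintype.prod_unique])
    (hW.m1 _ ((le_mul_of_one_le_left (by positivity) b3).trans b2))
  simp only [Fintype.prod_unique] at m1 m2
  obtain ⟨a, a0, a2, ha⟩ := hZ x (x ^ (-s)) hx.le (by positivity)
    (Real.rpow_le_one_of_one_le_of_nonpos hx.le (by linarith))
  have r1 : Le (RR x κ) (lam * zt) := Le.trans (g := RR x k)
    (le_bf fun m h => ⟨h.1, h.2.1, h.2.2.1, h.2.2.2.1.anti hx.le k1, h.2.2.2.2⟩) hW.maj
  have r2 : SS x (x ^ (-s)) (RR x κ * Y) ≤ SS x (x ^ (-s)) (Y * lam * zt) := by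
    rw [mul_assoc, mul_comm Y]
    exact SS_mono (by positivity) fun n _ => Le.mul_right n1 r1 n
  have r3 := (abs_le.1 (ha (Y * lam))).2
  have r4 : a * x * ms ⌊2 * x⌋₊ (Y * lam) ≤ ε / 2 * (x / Real.log x) := by
    have q1 := m1.trans (mul_le_mul_of_nonneg_right h1 (by positivity))
    refine (mul_le_mul_of_nonneg_left q1 (by positivity)).trans
      ((mul_le_mul_of_nonneg_right (mul_le_mul_of_nonneg_right a2 x0.le) (by positivity)).trans
        (le_of_eq ?_))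
    field_simp
    ring
  have r5 : C0 / x ^ (-s) * ∑ m ∈ Icc 1 ⌊2 * x⌋₊, |(Y * lam) m| ≤ x ^ (1 - d / 4) := by
    refine (mul_le_mul_of_nonneg_left m2 (by positivity)).trans ?_
    have q1 := mul_le_mul h4 (mul_le_mul_of_nonneg_left b1 (by positivity : 0 ≤ x ^ s))
      (by positivity) (by positivity)
    rw [← Real.rpow_add x0 s, ← Real.rpow_add x0 (d / 4),
      show d / 4 + (s + (1 / 2 + d / 2)) = 1 - d / 4 by linarith] at q1
    rw [Real.rpow_neg x0.le, div_inv_eq_mul]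
    exact le_trans (le_of_eq (by ring)) q1
  linarith

theorem layP : LayP := by
  intro hL hF κ c C s ε hκ hc hc2 hC hs hs2 hε
  rcases le_total c (1 / 2) with h | h
  · exact halfP hL hF hκ hc h hC hs hs2 hε
  filter_upwards [halfP hL hF (c := 1 - c) (C := 2 * C) hκ (by linarith) (by linarith)
    (by linarith) hs hs2 hε, eventually_gt_atTop (0 : ℝ)] with x h1 x0
  refine le_trans (SS_mono (by positivity) fun n hn => swap_Lay2 (nn_RR x κ) ?_) h1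
  rintro a b rfl h2 h3
  have e : x ^ (1 - c) * x ^ c = x := by rw [← Real.rpow_add x0, sub_add_cancel, Real.rpow_one]
  have p1 : 0 < x ^ c := by positivity
  have p2 : 0 < x ^ (1 - c) := by positivity
  have p3 : (0 : ℝ) ≤ a := Nat.cast_nonneg a
  obtain ⟨w1, w2⟩ := hn
  rw [Nat.cast_mul] at w1 w2
  rw [div_lt_iff₀ (by linarith)] at h2 ⊢
  constructor
  · refine lt_of_mul_lt_mul_right (a := x ^ c) ?_ p1.le
    nlinarith [mul_le_mul_of_nonneg_left h3 p3]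
  · refine le_of_mul_le_mul_right (a := x ^ c) ?_ p1
    nlinarith [mul_le_mul_of_nonneg_left h2.le p3,
      mul_le_mul_of_nonneg_left w2 (by linarith : 0 ≤ C)]

theorem rowP : RowP := by
  intro hCut hB hLay hLam hFW t κ z1 z2 lo hi E r j1 j2 B ht ht2 hκ hBa hlo hlh hhi hin ε hε
  obtain ⟨C1, hC1, b1⟩ := bnd_Row2 hB hκ z1 j1 B hBa
  obtain ⟨C2, hC2, b2⟩ := bnd_Row2 hB hκ z2 j2 (Fin.elim0 : Fin 0 → Blk) fun i => i.elim0
  have hC : (1 : ℝ) ≤ 2 ^ (j2 + 2) := one_le_pow₀ one_le_two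
  have hδ : 0 < ε / (8 * (C1 * C2)) := by positivity
  have l1 := hLay hLam hFW κ lo _ t _ hκ hlo (hlh.trans_lt hhi) hC ht ht2 hδ
  have l2 := hLay hLam hFW κ hi _ t _ hκ (hlo.trans_le hlh) hhi hC ht ht2 hδ
  have l3 := hLay hLam hFW κ lo _ (1 / 1000) _ hκ hlo (hlh.trans_lt hhi) hC (by norm_num)
    (by norm_num) hδ
  have l4 := hLay hLam hFW κ hi _ (1 / 1000) _ hκ (hlo.trans_le hlh) hhi hC (by norm_num)
    (by norm_num) hδ
  filter_upwards [b1, b2, l1, l2, l3, l4, hin _ (half_pos hε), eventually_ge_atTop 3] with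
    x b1 b2 l1 l2 l3 l4 h0 hx
  have hx0 : 0 < x := by linarith
  have nP : ∀ z, Nn (PP x κ z) := fun z m => (PP_nn_One x κ z m).1
  have hcut := hCut (PP x κ z2) (RR x κ) j2 (LL x) (nn x) ⌊2 * x⌋₊ (x ^ lo) (x ^ hi) (nP z2)
    (nn_RR x κ) (Real.rpow_pos_of_pos hx0 _) (Real.rpow_pos_of_pos hx0 _) LL_big
    ((Nat.floor_le (by linarith)).trans (nn_big hx))
  have hH : Nn ((∏ i, bf x (B i)) * PP x κ z1 ^ j1 * RR x κ) :=
    ((Nn.prod fun i _ => nn_bf _ _).mul ((nP z1).pow j1)).mul (nn_RR x κ)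
  rw [Fin.prod_univ_zero, one_mul] at b2
  generalize (∏ i, bf x (B i)) * PP x κ z1 ^ j1 * RR x κ = H at b1 h0 hH ⊢
  generalize inn (PP x κ z2) (RR x κ) j2 (LL x) (nn x) (x ^ lo) (x ^ hi) = I at h0 hcut
  generalize pm (PP x κ z2 ^ j2 * RR x κ) (rg (x ^ lo) (x ^ hi)) = F at hcut ⊢
  have key : ∀ Δ : ℝ, 0 ≤ Δ → |SS x Δ (H * F - H * I)| ≤ C1 * C2 *
      (SS x Δ (RR x κ * pm (RR x κ) (rg (x ^ lo / 2 ^ (j2 + 2)) (2 ^ (j2 + 2) * x ^ lo))) +
        SS x Δ (RR x κ * pm (RR x κ) (rg (x ^ hi / 2 ^ (j2 + 2)) (2 ^ (j2 + 2) * x ^ hi)))) := by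
    intro Δ hΔ
    rw [← SS_add, ← SS_smul]
    refine abs_SS_le hΔ fun n hn => ?_
    have a : ∀ d, d ≤ n → (d : ℝ) ≤ 2 * x := fun d hd => (Nat.cast_le.2 hd).trans hn.2
    exact pt_Row2 hH (fun d hd => b1 d (a d hd)) (fun d hd => b2 d (a d hd)) (rg_nn _ _)
      (rg_nn _ _) fun d hd => hcut d (Nat.le_floor (a d hd))
  have hCC : 0 < C1 * C2 := mul_pos hC1 hC2
  have k1 := (key _ (Real.rpow_nonneg hx0.le (-t))).trans
    (mul_le_mul_of_nonneg_left (add_le_add l1 l2) hCC.le)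
  have k2 := (key _ (Real.rpow_nonneg hx0.le (-(1 / 1000)))).trans
    (mul_le_mul_of_nonneg_left (add_le_add l3 l4) hCC.le)
  have e : C1 * C2 * (ε / (8 * (C1 * C2)) * (x / Real.log x) +
      ε / (8 * (C1 * C2)) * (x / Real.log x)) = ε / 4 * (x / Real.log x) := by
    generalize x / Real.log x = u
    field_simp
    ring
  rw [e] at k1 k2
  have e2 : Dl t x (H * F) = Dl t x (H * I) + (SS x (x ^ (-t)) (H * F - H * I) -
      SS x (x ^ (-(1 / 1000) : ℝ)) (H * F - H * I)) := by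
    have := Dl_sub t x (H * F) (H * I)
    unfold Dl SB at this ⊢
    linarith
  rw [e2]
  refine (abs_add_le _ _).trans ?_
  linarith [abs_sub (SS x (x ^ (-t)) (H * F - H * I))
    (SS x (x ^ (-(1 / 1000) : ℝ)) (H * F - H * I))]

lemma ms_pos {r : ℕ} {B : Fin r → Blk} (hB : ∀ i, 0 < (B i).a) : ∃ a M : ℝ, 0 < a ∧ 1 ≤ M ∧
    (∀ i, a ≤ (B i).a) ∧ ∀ᶠ x : ℝ in atTop, ∀ i, ms ⌊2 * x⌋₊ (bf x (B i)) ≤ M := by
  obtain ⟨a, a0, a1, a2⟩ : ∃ a : ℝ, 0 < a ∧ a ≤ 1 ∧ ∀ i, a ≤ (B i).a := by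
    obtain ⟨o, -, ho⟩ := exists_min_image univ (fun o : Option (Fin r) => o.elim 1 fun i => (B i).a)
      ⟨none, mem_univ _⟩
    refine ⟨_, ?_, ho none (mem_univ _), fun i => ho (some i) (mem_univ _)⟩
    cases o
    exacts [one_pos, hB _]
  refine ⟨a, 36 / a ^ 2, a0, ?_, a2, ?_⟩
  · rw [le_div_iff₀ (by positivity)]
    nlinarith
  · filter_upwards [ms_RR_Tm2 a0 a1, eventually_ge_atTop 2] with x hx x2 i
    refine le_trans (sum_le_sum fun m hm => div_le_div_of_nonneg_right ?_ (Nat.cast_nonneg _)) hx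
    by_cases h : (B i).Mem x m
    · have h2 : (m : ℝ) ≤ 2 * x := (Nat.le_floor_iff (by linarith)).1 (mem_Icc.1 hm).2
      refine (bf_le_one _ _ _).trans (bf_of_mem ((mem_fr (by linarith)).2 ⟨h.1, ?_, ?_⟩)).ge
      · rw [Real.rpow_two]
        nlinarith
      · exact h.2.2.2.1.anti (by linarith) (a2 i)
    · rw [bf_of_not h]
      exact nn_RR x a m

variable {Y : Sys}

theorem yFinP (hY : Y.Sd) (hT2 : T2G Y) (hT1R : T1RG Y) (hT1 : T1G Y) (hSZ : SZStmt) (hNom : NomStmt)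
    (hVan : VanStmt) (hPr : PrStmt) (hDy : DyStmt) (hId : IdStmt) (hBad : BadStmt)
    (hMs : MsStmt) (hOne : OneG Y) (hRow : RowStmt) (hSum : SumStmt) (h1 : E1G Y) (h2 : E2G Y) :
    LeafSH Y := by
  intro τ t ht hτ hτ2 r B z hB hz hD
  obtain ⟨η₀, hη₀, hD⟩ := hD
  obtain ⟨-, hP⟩ := hMs
  obtain ⟨-, M, -, hM1, -, hM⟩ := ms_pos hB
  set η := min η₀ (1 / 1000) with hηd
  have hη : 0 < η := lt_min hη₀ (by norm_num)
  have hl : 0 < lev τ t η := lt_min (by positivity) (by linarith)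
  set c := min (lev τ t η) (min z 1) with hc
  have c0 : 0 < c := lt_min hl (lt_min hz one_pos)
  have key : ∀ ε : ℝ, 0 < ε → ∀ᶠ x : ℝ in atTop,
      |Dl t x ((∏ i, bf x (B i)) * bf x (fr z))| ≤ ε * (x / Real.log x) := by
    intro ε hε
    obtain ⟨w, hw, hs⟩ := small_Fin (C := 2 ^ 28 * M ^ r * 6 / c ^ 2) (by positivity)
      (half_pos hε)
    have w0 : (1 : ℝ) ≤ 4 * (w : ℝ) + 6 := by
      have : (0 : ℝ) ≤ w := Nat.cast_nonneg w
      linarith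
    set κ := c / (4 * (w : ℝ) + 6) with hκ
    have κ0 : 0 < κ := by positivity
    have κc : κ ≤ c := div_le_self c0.le w0
    have κz : κ ≤ z := κc.trans ((min_le_right _ _).trans (min_le_left _ _))
    have κ1 : κ ≤ 1 := κc.trans ((min_le_right _ _).trans (min_le_right _ _))
    have κl : κ * (4 * w + 6) ≤ lev τ t η := by
      rw [hκ, div_mul_cancel₀ _ (by linarith)]
      exact min_le_left _ _
    obtain ⟨η', hη', K, hK⟩ := hD κ κ0
    have hA : AltG Y τ η η' κ z K B := fun j a q b ha hq hb hs =>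
      (hK j a q b ha hq hb hs).imp (fun h => hY.mono1 h (min_le_left _ _)) id
    have hO := hOne hT2 hT1R hT1 hSZ hNom hVan hPr h1 h2 τ t η η' κ z K w r B ht hτ hτ2 hη
      (min_le_right _ _) hη' hw κ0 κl hA
    have m0 : 0 ≤ Real.log (6 / κ) := Real.log_nonneg (by
      rw [le_div_iff₀ κ0]
      linarith)
    have hR := hSum hId hBad hSZ t κ z (2 ^ 28 / 4 ^ w / κ * M ^ r) (Real.log (6 / κ)) r B
      (by linarith) (by linarith) κ0 κz (by positivity) m0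
      (fun j => hRow hDy t κ z _ M _ r j B (by positivity) (hO j)
        hM (hP κ z κ0 κ1)) (ε / 2) (half_pos hε)
    filter_upwards [hR, eventually_gt_atTop 1] with x hx x1
    refine hx.trans (mul_le_mul_of_nonneg_right ?_
      (div_nonneg (by linarith) (Real.log_pos x1).le))
    rw [Real.exp_log (by positivity)]
    have e : 2 ^ 28 / 4 ^ w / κ * M ^ r * (6 / κ) =
        2 ^ 28 * M ^ r * 6 / c ^ 2 * (4 * (w : ℝ) + 6) ^ 2 / 4 ^ w := by
      rw [hκ]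
      field_simp
    rw [e]
    linarith
  refine ⟨fun ε hε => (key ε hε).mono fun x hx => ?_, fun ε hε => (key ε hε).mono fun x hx => ?_⟩
  · rw [zero_add]
    exact (abs_le.1 hx).1
  · rw [zero_add]
    exact (abs_le.1 hx).2

theorem yFin2P (hY : Y.Sd) (hFW : FWStmt) (hOm : OmStmt) (hTm : TmStmt) (hTa : TaG Y) (hTb : TbG Y)
    (hBox : BoxG Y) (hNom : NomStmt2) (hOne : One2G Y) (hErr : ErrStmt) (hES : ESumStmt)
    (hExp : ExpStmt) (hIn : InStmt) (hCut : CutStmt) (hBnd : BndStmt) (hLam : LamP)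
    (hLay : LayP) (hRow : RowP) (hSum : SumStmt2) (h1 : E1G Y) (h2 : E2G Y) (h12 : E12G Y) :
    LeafS2H Y := by
  intro τ t ht hτ hτ2 r B z1 z2 lo hi hB hz1 hz2 hlo hhi hD
  rcases lt_or_ge hi lo with hlh | hlh
  · refine (ev_zero t).congr ?_
    filter_upwards [eventually_ge_atTop 1] with x hx n _
    have e : bf x ⟨lo, hi, z2, none⟩ = 0 := by
      ext m
      refine bf_of_not fun h => ?_
      have := Real.rpow_le_rpow_of_exponent_le hx hlh.le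
      linarith [h.2.1, h.2.2.1]
    rw [e, mul_zero, zero_mul]
  obtain ⟨η₀, hη₀, hD⟩ := hD
  obtain ⟨-, hP⟩ := dMs
  obtain ⟨a0, M, ha0, hM1, ha1, hM⟩ := ms_pos hB
  set η := min η₀ (1 / 1000) with hηd
  have hη : 0 < η := lt_min hη₀ (by norm_num)
  have hl : 0 < lev τ t η := lt_min (by positivity) (by linarith)
  set c := min (min (lev τ t η) (1 / 100)) (min (min z1 z2) a0) with hc
  have c0 : 0 < c := lt_min (lt_min hl (by norm_num)) (lt_min (lt_min hz1 hz2) ha0)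
  refine ev_iff.2 fun ε hε => ?_
  obtain ⟨w, hw, hs⟩ := small_Fin2 (C := 2 ^ 36 * M ^ r * 36 / c ^ 5) (by positivity)
    (half_pos hε)
  have w0 : (1 : ℝ) ≤ 4 * (w : ℝ) + 6 := by
    have : (0 : ℝ) ≤ w := Nat.cast_nonneg w
    linarith
  set κ := c / (4 * (w : ℝ) + 6) with hκ
  have κ0 : 0 < κ := by positivity
  have κc : κ ≤ c := div_le_self c0.le w0
  have κz1 : κ ≤ z1 :=
    κc.trans ((min_le_right _ _).trans ((min_le_left _ _).trans (min_le_left _ _)))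
  have κz2 : κ ≤ z2 :=
    κc.trans ((min_le_right _ _).trans ((min_le_left _ _).trans (min_le_right _ _)))
  have κa : κ ≤ a0 := κc.trans ((min_le_right _ _).trans (min_le_right _ _))
  have c1 : c ≤ 1 / 100 := (min_le_left _ _).trans (min_le_right _ _)
  have κe : κ * (4 * w + 6) = c := by rw [hκ, div_mul_cancel₀ _ (by linarith)]
  have κl : κ * (4 * w + 6) ≤ lev τ t η := κe.trans_le ((min_le_left _ _).trans (min_le_left _ _))
  obtain ⟨η', hη', K, hK⟩ := hD κ κ0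
  have hA : Alt2G Y τ η η' κ z1 z2 lo hi K B := fun j1 j2 a q1 q2 b1 b2 a1 a2 a3 a4 a5 a6 a7 a8 =>
    alt_mono hY (hK j1 j2 a q1 q2 b1 b2 a1 a2 a3 a4 a5 a6 a7 a8) (min_le_left _ _)
  have hO := hOne hBox hNom hTa hTb h1 h2 h12 τ t η η' κ z1 z2 lo hi K w r B ht hτ hτ2 hη
    (min_le_right _ _) hη' κ0 κl hA
  have m0 : 0 ≤ Real.log (6 / κ) := Real.log_nonneg (by
    rw [le_div_iff₀ κ0]
    linarith)
  have t0 : 0 < t := by linarith
  have t1 : t < 1 / 2 := by linarith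
  have hR := fun j1 j2 => hRow hCut hBnd hLay hLam hFW t κ z1 z2 lo hi _ r j1 j2 B t0 t1 κ0
    (fun i => κa.trans (ha1 i)) hlo hlh hhi
    (hIn hExp hES hErr hTm hOm hFW t κ z1 z2 lo hi M (Real.log (6 / κ)) w r j1 j2 B κ0 hw
      (κe.trans_le c1) (hO j1 j2) hM
      (hP κ z1 κ0 (by linarith)) (hP κ z2 κ0 (by linarith)))
  have hS := fun j1 => hSum t κ z2 lo hi
    (2 ^ 36 / 4 ^ w / κ ^ 3 * M ^ r * Real.log (6 / κ) ^ j1) (Real.log (6 / κ))
    (fun x => (∏ i, bf x (B i)) * PP x κ z1 ^ j1 * RR x κ) t0 t1 κ0 κz2 (by positivity) m0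
    (fun δ hδ => div_Fin2 B κ z1 j1 hδ) (hR j1)
  have e : ∀ x : ℝ, ∏ i, bf x ((Fin.snoc B ⟨lo, hi, z2, none⟩ : Fin (r + 1) → Blk) i) =
      (∏ i, bf x (B i)) * bf x ⟨lo, hi, z2, none⟩ := fun x => by
    rw [Fin.prod_univ_castSucc]
    simp only [Fin.snoc_castSucc, Fin.snoc_last]
  have hT := dSum dId dBad dSZ t κ z1 (2 ^ 36 / 4 ^ w / κ ^ 3 * M ^ r * (6 / κ))
    (Real.log (6 / κ)) (r + 1) (Fin.snoc B ⟨lo, hi, z2, none⟩) t0 t1 κ0 κz1 (by positivity) m0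
    (fun j ε' hε' => (hS j ε' hε').mono fun x hx => by
      rw [Real.exp_log (by positivity)] at hx
      rw [e]
      convert hx using 3
      · unfold RR
        ring
      · ring) (ε / 2) (half_pos hε)
  filter_upwards [hT, eventually_gt_atTop 1] with x hx x1
  rw [e, Real.exp_log (by positivity)] at hx
  refine hx.trans (mul_le_mul_of_nonneg_right ?_
    (div_nonneg (by linarith) (Real.log_pos x1).le))
  have e2 : 2 ^ 36 / 4 ^ w / κ ^ 3 * M ^ r * (6 / κ) * (6 / κ) =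
      2 ^ 36 * M ^ r * 36 / c ^ 5 * (4 * (w : ℝ) + 6) ^ 5 / 4 ^ w := by
    rw [hκ]
    field_simp
    ring
  rw [e2]
  linarith

theorem leafSH (h : Y.OK) : LeafSH Y :=
  yFinP h.sd (yT2 dDy dVan) (yT1R h.sd) (yT1 h.sd dVan) dSZ dNom dVan dPr dDy dId dBad dMs yOne
    dRow dSum h.e1 h.e2

theorem leafS2H (h : Y.OK) : LeafS2H Y :=
  yFin2P h.sd d2FW d2Om d2Tm (yTa h.sd) (yTb h.sd) (yBox h.sd) d2Nom yOne2 d2Err d2ESum d2Exp d2In
    d2Cut d2Bnd lamP layP rowP d2Sum h.e1 h.e2 h.e12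

end Pool.Agent.MP_c853c5_nt.Y
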